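import Mathlib

/-! # Derivations of the field of rational functions and algebraic dependence -/

set_option autoImplicit false
set_option linter.unusedSectionVars false

open MvPolynomial

namespace Pool.Agent.W943.Few

section Extend
open TrivSqZeroExt

variable {k A F : Type*} [CommRing k] [CommRing A] [IsDomain A] [Field F] [Algebra A F]
  [IsFractionRing A F] [Algebra k A] [Algebra k F] [IsScalarTower k A F]

theorem exists_extend (D : Derivation k A A) :
    ∃ D' : Derivation k F F, ∀ a, D' (algebraMap A F a) = algebraMap A F (D a) := by
  let φ : A →ₐ[k] TrivSqZeroExt F F :=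
    { toFun := fun a => inl (algebraMap A F a) + inr (algebraMap A F (D a))
      map_one' := by simp
      map_mul' := by
        intro a b
        ext
        · simp only [fst_add, fst_inl, fst_inr, fst_mul, map_mul, add_zero]
        · simp only [snd_add, snd_inl, snd_inr, snd_mul, fst_add, fst_inl, fst_inr, map_mul,
            Derivation.leibniz, smul_eq_mul, map_add, MulOpposite.smul_eq_mul_unop,
            MulOpposite.unop_op, zero_add, add_zero]
          ring
      map_zero' := by simp
      map_add' := by
        intro a b
        ext
        · simp only [fst_add, fst_inl, fst_inr, map_add, add_zero]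
        · simp only [snd_add, snd_inl, snd_inr, map_add, zero_add]
      commutes' := by
        intro c
        rw [algebraMap_eq_inl', ← IsScalarTower.algebraMap_apply k A F]
        simp }
  have hφ1 : ∀ a, (φ a).fst = algebraMap A F a := fun a => by
    change (inl (algebraMap A F a) + inr (algebraMap A F (D a)) : TrivSqZeroExt F F).fst = _
    simp only [fst_add, fst_inl, fst_inr, add_zero]
  have hφ2 : ∀ a, (φ a).snd = algebraMap A F (D a) := fun a => by
    change (inl (algebraMap A F a) + inr (algebraMap A F (D a)) : TrivSqZeroExt F F).snd = _
    simp only [snd_add, snd_inl, snd_inr, zero_add]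
  have hφ : ∀ s : nonZeroDivisors A, IsUnit (φ s) := by
    intro s
    rw [TrivSqZeroExt.isUnit_iff_isUnit_fst, hφ1, isUnit_iff_ne_zero]
    exact IsLocalization.to_map_ne_zero_of_mem_nonZeroDivisors F le_rfl s.2
  let ψ : F →ₐ[k] TrivSqZeroExt F F := IsLocalization.liftAlgHom (M := nonZeroDivisors A) (f := φ) hφ
  have hψ : ∀ a, ψ (algebraMap A F a) = φ a := fun a => by
    simp [ψ]
  have hfst : ∀ z, (ψ z).fst = z := by
    intro z
    obtain ⟨a, b, hb, rfl⟩ := IsFractionRing.div_surjective (A := A) z
    have hb0 : algebraMap A F b ≠ 0 := IsLocalization.to_map_ne_zero_of_mem_nonZeroDivisors F le_rfl hb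
    have h1 : ψ (algebraMap A F a / algebraMap A F b) * ψ (algebraMap A F b) = ψ (algebraMap A F a) := by
      rw [← map_mul, div_mul_cancel₀ _ hb0]
    have h2 := congrArg TrivSqZeroExt.fst h1
    rw [TrivSqZeroExt.fst_mul, hψ, hψ, hφ1, hφ1] at h2
    rw [eq_div_iff hb0, h2]
  refine ⟨
    { toFun := fun z => (ψ z).snd
      map_add' := fun a b => by rw [map_add, snd_add]
      map_smul' := fun c a => by rw [map_smul, snd_smul]; rfl
      map_one_eq_zero' := by
        change (ψ 1).snd = 0
        rw [map_one, snd_one]
      leibniz' := fun a b => by
        change (ψ (a * b)).snd = a • (ψ b).snd + b • (ψ a).snd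
        rw [map_mul, snd_mul, hfst, hfst]
        simp only [smul_eq_mul, MulOpposite.smul_eq_mul_unop, MulOpposite.unop_op]
        ring }, ?_⟩
  intro a
  change (ψ (algebraMap A F a)).snd = _
  rw [hψ, hφ2]

end Extend

section

variable {k F : Type*} [Field k] [Field F] [Algebra k F]

/-- a derivation which kills a set kills the field generated by it -/
lemma der_adjoin (D : Derivation k F F) (s : Set F) (hs : ∀ x ∈ s, D x = 0) :
    ∀ x ∈ IntermediateField.adjoin k s, D x = 0 := by
  intro x hx
  induction hx using IntermediateField.adjoin_induction with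
  | mem x hx => exact hs x hx
  | algebraMap x => exact D.map_algebraMap x
  | add x y _ _ hx hy => rw [map_add, hx, hy, add_zero]
  | inv x _ hx =>
    rw [Derivation.leibniz_inv, hx, smul_zero]
  | mul x y _ _ hx hy => rw [Derivation.leibniz, hx, hy, smul_zero, smul_zero, add_zero]

/-- a derivation which kills a subfield kills the elements algebraic over it -/
lemma der_algebraic [CharZero k] (D : Derivation k F F) (L : IntermediateField k F)
    (hL : ∀ x ∈ L, D x = 0) (f : F) (hf : IsAlgebraic L f) : D f = 0 := by
  have : CharZero L := charZero_of_injective_algebraMap (algebraMap k L).injective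
  -- the derivation over the subfield
  let D' : Derivation L F F :=
    { toFun := D
      map_add' := map_add D
      map_smul' := fun c x => by
        change D ((c : F) * x) = (c : F) * D x
        rw [Derivation.leibniz, hL c c.2, smul_zero, add_zero, smul_eq_mul]
      map_one_eq_zero' := D.map_one_eq_zero
      leibniz' := D.leibniz }
  have hint : IsIntegral L f := hf.isIntegral
  have hsep : (minpoly L f).Separable := (minpoly.irreducible hint).separable
  have h0 : Polynomial.aeval f (minpoly L f) = 0 := minpoly.aeval L f
  have h1 : D' (Polynomial.aeval f (minpoly L f)) =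
      Polynomial.aeval f (Polynomial.derivative (minpoly L f)) • D' f :=
    D'.map_aeval (minpoly L f) f
  rw [h0, map_zero] at h1
  have h2 : Polynomial.aeval f (Polynomial.derivative (minpoly L f)) ≠ 0 :=
    hsep.aeval_derivative_ne_zero h0
  rw [smul_eq_mul, eq_comm, mul_eq_zero] at h1
  exact h1.resolve_left h2

end

end Pool.Agent.W943.Few
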