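import Pool.Agent.W943.Few.F8
import Pool.Agent.W943.Few.F9

/-! # From algebraic dependence to the relation with multipliers -/

set_option autoImplicit false
set_option linter.unusedSectionVars false

open MvPolynomial

namespace Pool.Agent.W943.Few

section

variable {K : Type*} [Field K] [CharZero K] {σ : Type*} [Fintype σ]

/-- the derivatives of a solution of a linear system -/
lemma det_sq_mul_der {N : ℕ} {E : Type*} [Field E] [Algebra K E]
    [Algebra (MvPolynomial σ K) E] (A : Matrix (Fin N) (Fin N) (MvPolynomial σ K))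
    (b : Fin N → MvPolynomial σ K) (x : Fin N → E)
    (hx : ∀ i, ∑ j, algebraMap (MvPolynomial σ K) E (A i j) * x j =
      algebraMap (MvPolynomial σ K) E (b i))
    (u : σ) (D : Derivation K E E)
    (hD : ∀ a, D (algebraMap (MvPolynomial σ K) E a) =
      algebraMap (MvPolynomial σ K) E (pderiv u a)) (i : Fin N) :
    algebraMap (MvPolynomial σ K) E A.det * algebraMap (MvPolynomial σ K) E A.det * D (x i) =
      algebraMap (MvPolynomial σ K) E (Hu A b u i) := by
  set α := algebraMap (MvPolynomial σ K) E with hα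
  have hA : (A.map α).det = α A.det := by
    rw [RingHom.map_det, RingHom.mapMatrix_apply]
  have h1 : (A.map α).mulVec x = fun i => α (b i) := funext hx
  have h2 : (A.map α).det • x = (A.map α).adjugate.mulVec fun i => α (b i) := by
    rw [← h1, Matrix.mulVec_mulVec, Matrix.adjugate_mul, Matrix.smul_mulVec, Matrix.one_mulVec]
  have h3 : (A.map α).mulVec (fun j => D (x j)) =
      (fun i => α (pderiv u (b i))) - ((A.map (pderiv u)).map α).mulVec x := by
    funext i
    have h4 := congrArg D (hx i)
    rw [map_sum, hD] at h4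
    simp only [Derivation.leibniz, hD, smul_eq_mul] at h4
    rw [Finset.sum_add_distrib] at h4
    rw [Pi.sub_apply, eq_sub_iff_add_eq]
    change ∑ j, α (A i j) * D (x j) + ∑ j, α (pderiv u (A i j)) * x j = _
    rw [← h4]
    congr 1
    exact Finset.sum_congr rfl fun j _ => mul_comm _ _
  have h5 : (A.map α).det • (fun j => D (x j)) = (A.map α).adjugate.mulVec
      ((fun i => α (pderiv u (b i))) - ((A.map (pderiv u)).map α).mulVec x) := by
    rw [← h3, Matrix.mulVec_mulVec, Matrix.adjugate_mul, Matrix.smul_mulVec, Matrix.one_mulVec]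
  have h6 : ((A.map α).adjugate.mulVec fun i => (A.map α).det * α (pderiv u (b i)) -
      (((A.map (pderiv u)).map α).mulVec ((A.map α).adjugate.mulVec fun i => α (b i))) i) =
      (A.map α).det • ((A.map α).det • (fun j => D (x j))) := by
    rw [h5, ← h2, ← Matrix.mulVec_smul]
    congr 1
    funext i
    rw [Matrix.mulVec_smul, Pi.smul_apply, Pi.smul_apply, Pi.sub_apply, smul_eq_mul,
      smul_eq_mul, mul_sub]
  have h7 := congrFun h6 i
  rw [Hv_map α A (A.map (pderiv u)) b (fun i => pderiv u (b i)) i] at h7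
  unfold Hu
  rw [h7, Pi.smul_apply, Pi.smul_apply, smul_eq_mul, smul_eq_mul, hA, mul_assoc]

lemma der_sum {E : Type*} [Field E] [Algebra K E] (D : σ → Derivation K E E) (c : σ → E) (z : E)
    (s : Finset σ) : (∑ u ∈ s, c u • D u) z = ∑ u ∈ s, D u z * c u := by
  classical
  induction s using Finset.induction_on with
  | empty => simp
  | insert a s ha ih =>
    rw [Finset.sum_insert ha, Finset.sum_insert ha, Derivation.add_apply, ih,
      Derivation.smul_apply, smul_eq_mul, mul_comm]

theorem exists_mult {N : ℕ} {E : Type*} [Field E] [Algebra K E]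
    [Algebra (MvPolynomial σ K) E] [IsFractionRing (MvPolynomial σ K) E]
    [IsScalarTower K (MvPolynomial σ K) E] (A : Matrix (Fin N) (Fin N) (MvPolynomial σ K))
    (b : Fin N → MvPolynomial σ K) (x : Fin N → E)
    (hx : ∀ i, ∑ j, algebraMap (MvPolynomial σ K) E (A i j) * x j =
      algebraMap (MvPolynomial σ K) E (b i))
    (T : Finset (Fin N)) (f : MvPolynomial σ K)
    (hf : IsAlgebraic (IntermediateField.adjoin K (x '' (T : Set (Fin N))))
      (algebraMap (MvPolynomial σ K) E f)) :
    ∃ p₀ : MvPolynomial σ K, p₀ ≠ 0 ∧ ∃ pj : T → MvPolynomial σ K, ∀ u,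
      p₀ * (pderiv u f * A.det * A.det) = ∑ j, pj j * Hu A b u (j : Fin N) := by
  classical
  set α := algebraMap (MvPolynomial σ K) E with hα
  have hinj : Function.Injective α := IsFractionRing.injective _ _
  choose D hD using fun u : σ => exists_extend (k := K) (A := MvPolynomial σ K) (F := E)
    (pderiv (R := K) u)
  let Lf : E → ((σ → E) →ₗ[E] E) := fun z => ∑ u, (D u z) • LinearMap.proj u
  have hLf : ∀ z c, Lf z c = ∑ u, D u z * c u := by
    intro z c
    simp only [Lf, LinearMap.sum_apply, LinearMap.smul_apply, LinearMap.proj_apply, smul_eq_mul]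
  have hker : ⨅ j : T, LinearMap.ker (Lf (x j)) ≤ LinearMap.ker (Lf (α f)) := by
    intro c hc
    rw [Submodule.mem_iInf] at hc
    have hDc : ∀ z, (∑ u, c u • D u) z = Lf z c := by
      intro z
      rw [hLf, der_sum]
    rw [LinearMap.mem_ker, ← hDc]
    refine der_algebraic _ (IntermediateField.adjoin K (x '' (T : Set (Fin N)))) ?_ _ hf
    refine der_adjoin _ _ ?_
    rintro _ ⟨j, hj, rfl⟩
    rw [hDc]
    exact LinearMap.mem_ker.1 (hc ⟨j, hj⟩)
  have hspan := mem_span_of_iInf_ker_le_ker hker
  rw [Submodule.mem_span_range_iff_exists_fun] at hspan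
  obtain ⟨g, hg⟩ := hspan
  have hg' : ∀ u, D u (α f) = ∑ j, g j * D u (x j) := by
    intro u
    have h1 := congrArg (fun L : (σ → E) →ₗ[E] E => L (Pi.single u 1)) hg
    simp only [LinearMap.sum_apply, LinearMap.smul_apply, hLf, smul_eq_mul] at h1
    simp only [Pi.single_apply, mul_ite, mul_one, mul_zero, Finset.sum_ite_eq',
      Finset.mem_univ, if_true] at h1
    exact h1.symm
  obtain ⟨s, hs⟩ := IsLocalization.exist_integer_multiples_of_finite
    (nonZeroDivisors (MvPolynomial σ K)) g
  choose pj hpj using hs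
  refine ⟨s, nonZeroDivisors.ne_zero s.2, pj, fun u => ?_⟩
  apply hinj
  rw [map_mul, map_mul, map_mul, map_sum, ← hD, hg']
  rw [Finset.sum_mul, Finset.sum_mul, Finset.mul_sum]
  refine Finset.sum_congr rfl fun j _ => ?_
  have h2 := det_sq_mul_der A b x hx u (D u) (hD u) (j : Fin N)
  rw [map_mul, ← h2]
  have h3 : α (pj j) = α s * g j := by
    have := hpj j
    rw [this, Algebra.smul_def]
  rw [h3]
  ring

end

end Pool.Agent.W943.Few
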