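import Pool.Agent.W943.Few.F11
import Pool.Agent.W943.Few.F7T

/-! # The cubic bound for limits of functions of few coordinates -/

set_option autoImplicit false
set_option linter.unusedSectionVars false

open Module MvPolynomial

namespace Pool.Agent.W943.Few

open Pool.Agent.W944
open Pool.Agent.W940.G
open Pool.Agent.W944.Cx (exists_params lift_poly)
open Pool.Agent.H546R2.SL (perN)
open Pool.Agent.H632R2.Border (O0 φ0 ψ0 φψ rmap rmap_mem rmap_eval)

/-- the inequality with a limit -/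
theorem coreB {K : Type*} [Field K] [IsAlgClosed K] {σ ι τ₀ V : Type*} [Fintype σ] [Fintype ι]
    [Fintype τ₀] [Finite V] {N : ℕ} (f : MvPolynomial σ K) (G : MvPolynomial σ (O0 K))
    (hG : map (φ0 K) G = f) (d : ℕ) (hf : (map (O0 K).subtype G).totalDegree ≤ d)
    (S : σ → MvPolynomial ι K) (hS : ∀ v, (S v).totalDegree ≤ 1)
    (y : V → MvPolynomial ι K) (e : ℕ) (hy : ∀ v, (y v).IsHomogeneous e)
    (hz : ∀ x : ι → K, (∀ v, eval x (y v) = 0) → x = 0)
    (hyS : ∀ v, ∃ (c : K) (u : σ), y v = C c * aeval S (pderiv u f))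
    (A : Matrix (Fin N) (Fin N) (MvPolynomial σ (RatFunc K)))
    (b : Fin N → MvPolynomial σ (RatFunc K)) (δ : ℕ)
    (hA : ∀ i j, (A i j).totalDegree ≤ δ) (hb : ∀ i, (b i).totalDegree ≤ δ)
    (hdet : A.det ≠ 0) (out : τ₀ → Fin N) (p₀ : MvPolynomial σ (RatFunc K)) (hp₀ : p₀ ≠ 0)
    (pj : τ₀ → MvPolynomial σ (RatFunc K))
    (hrel : ∀ u, p₀ * (pderiv u (map (O0 K).subtype G) * A.det * A.det) =
      ∑ j, pj j * Hu A b u (out j))
    (k : ℕ) (hι : Fintype.card ι = k + 1) (e' : ℕ) (h1 : δ ≤ e') (h2 : d - 1 ≤ e') :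
    ∃ r M₀ : ℕ, r ≤ Fintype.card τ₀ ∧ ∀ B T t₁ t₂ t₃ : ℕ,
      (t₁ + N).choose N * ((t₂ + N).choose N * ((t₃ + r).choose r *
        ((B + 1) * (e * T + k).choose k))) ≤
      (k + 2).multichoose (M₀ + B + (δ - 1) * T + t₃ * e' + t₂ * δ + t₁ * δ) *
        (N + 1).multichoose (T + t₃ + t₁) * (N + r + 1).multichoose (T + t₃ + t₂) := by
  classical
  obtain ⟨c, hc⟩ := exists_trans' S (p₀ * A.det) (mul_ne_zero hp₀ hdet)
  set θ := ηL S c with hθ
  rw [map_mul] at hc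
  have hp0 : θ p₀ ≠ 0 := left_ne_zero_of_mul hc
  have hd0 : θ A.det ≠ 0 := right_ne_zero_of_mul hc
  set M : Matrix (Fin N) (Fin N) (MvPolynomial ι (RatFunc K)) := A.map θ with hM
  set bb : Fin N → MvPolynomial ι (RatFunc K) := fun i => θ (b i) with hbb
  have hMdet : M.det = θ A.det := by
    rw [RingHom.map_det, RingHom.mapMatrix_apply]
  set F := FractionRing (MvPolynomial ι (RatFunc K)) with hF
  set α := algebraMap (MvPolynomial ι (RatFunc K)) F with hα
  have hinj : Function.Injective α := IsFractionRing.injective _ _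
  set Mu : σ → Matrix (Fin N) (Fin N) (MvPolynomial ι (RatFunc K)) :=
    fun u => (A.map (pderiv u)).map θ with hMu
  set bu : σ → Fin N → MvPolynomial ι (RatFunc K) := fun u i => θ (pderiv u (b i)) with hbu
  have hHu : ∀ u i, Hv M bb (Mu u) (bu u) i = θ (Hu A b u i) := fun u i =>
    Hv_map θ A (A.map (pderiv u)) b (fun i => pderiv u (b i)) i
  set f' := map (O0 K).subtype G with hf'
  -- the relation over the fraction field
  have hrelF : ∀ u, α (θ (pderiv u f') * M.det * M.det) =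
      ∑ j, (α (θ (pj j)) / α (θ p₀)) * α (Hv M bb (Mu u) (bu u) (out j)) := by
    intro u
    have h3 := congrArg (fun x => α (θ x)) (hrel u)
    rw [map_mul, map_mul, map_mul, map_mul, map_sum, map_sum, ← hMdet] at h3
    have hne : α (θ p₀) ≠ 0 := (map_ne_zero_iff _ hinj).mpr hp0
    have h4 : ∑ j, (α (θ (pj j)) / α (θ p₀)) * α (Hv M bb (Mu u) (bu u) (out j)) =
        (∑ j, α (θ (pj j * Hu A b u (out j)))) / α (θ p₀) := by
      rw [Finset.sum_div]
      refine Finset.sum_congr rfl fun j _ => ?_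
      rw [hHu, map_mul, map_mul]
      ring
    rw [h4, ← h3, mul_div_cancel_left₀ _ hne, ← map_mul α, map_mul θ, ← hMdet]
  obtain ⟨r, a, kk, c', ha, hp, hunit⟩ := exists_minor
    (fun (u : σ) (j : τ₀) => α (Hv M bb (Mu u) (bu u) (out j)))
    (fun u => α (θ (pderiv u f') * M.det * M.det)) _ hrelF
  obtain ⟨M₀, hM₀⟩ := forms_dim y e hy hz k hι
  refine ⟨r, M₀, by simpa using Fintype.card_le_of_injective a ha, ?_⟩
  intro B T t₁ t₂ t₃
  have hdegM : ∀ i j, (M i j).totalDegree ≤ δ := fun i j => totalDegree_ηL S hS c δ _ (hA i j)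
  have hdegb : ∀ i, (bb i).totalDegree ≤ δ := fun i => totalDegree_ηL S hS c δ _ (hb i)
  have hdegMu : ∀ u i j, (Mu u i j).totalDegree ≤ δ - 1 := fun u i j =>
    totalDegree_ηL S hS c _ _ (totalDegree_pderiv_leD δ _ (hA i j) u)
  have hdegbu : ∀ u i, (bu u i).totalDegree ≤ δ - 1 := fun u i =>
    totalDegree_ηL S hS c _ _ (totalDegree_pderiv_leD δ _ (hb i) u)
  have hdegf : ∀ u, (θ (pderiv u f')).totalDegree ≤ d - 1 := fun u =>
    totalDegree_ηL S hS c _ _ (totalDegree_pderiv_leD d _ hf u)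
  have hrelR : ∀ u, Rel M bb (out ∘ a) c' (Mu u) (bu u) (θ (pderiv u f')) := fun u => hp u
  have hmain := main_ineq (τ := Fin r) (F := F) (l := out ∘ a) (c := c') (δ := δ) (δ₁ := δ - 1)
    (e := e') hinj hdegM hdegb (by rw [hMdet]; exact hd0) (fun i => Mu (kk i))
    (fun i => bu (kk i)) (fun i => θ (pderiv (kk i) f'))
    (fun i x y => (hdegMu _ x y).trans (by omega)) (fun i x => (hdegbu _ x).trans (by omega))
    (fun i => (hdegf _).trans h2) (fun i => hrelR (kk i))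
    (Matrix.of fun i i' => α (Hv M bb (Mu (kk i)) (bu (kk i)) (out (a i'))))
    (fun i i' => rfl) hunit Mu bu (fun u => θ (pderiv u f')) hdegMu hdegbu hrelR
    t₁ t₂ t₃ (M₀ + B) T
  rw [Fintype.card_fin, hι] at hmain
  refine le_trans ?_ hmain
  apply Nat.mul_le_mul_left
  apply Nat.mul_le_mul_left
  apply Nat.mul_le_mul_left
  refine (hM₀ B T).trans ?_
  apply semi (φψ K) y (fun u => θ (pderiv u f'))
  intro v
  obtain ⟨c₁, u, hcu⟩ := hyS v
  refine ⟨C (ψ0 K c₁) * ηO S c (pderiv u G), ?_, ?_⟩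
  · rw [map_mul, map_C, φψ, φ_ηO, ← pderiv_map', hG, hcu]
  · rw [map_mul, map_C, ← smul_eq_C_mul, map_ηO, ← pderiv_map']
    exact Submodule.smul_mem _ _ (Submodule.subset_span ⟨u, rfl⟩)

/-- **The cubic bound for limits.** -/
theorem perm_coreB (k₀ : Type*) [Field k₀] [CharZero k₀] (m N δ t₀ : ℕ) (hδ : 1 ≤ δ)
    (hm : 210000 * δ ≤ m)
    (A : Matrix (Fin N) (Fin N) (MvPolynomial (Fin m × Fin m) (RatFunc k₀)))
    (b : Fin N → MvPolynomial (Fin m × Fin m) (RatFunc k₀))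
    (hA : ∀ i j, (A i j).totalDegree ≤ δ) (hb : ∀ i, (b i).totalDegree ≤ δ)
    (hdet : A.det ≠ 0) (T : Finset (Fin N)) (hT : (5440 + 544 * t₀) * T.card ≤ m ^ 2)
    (f : MvPolynomial (Fin m × Fin m) (RatFunc k₀)) (hfdeg : f.totalDegree ≤ 2 ^ t₀ * m)
    (hf : ∀ μ, (coeff μ f).denom.eval 0 ≠ 0 ∧
      RatFunc.eval (RingHom.id k₀) 0 (coeff μ f) = coeff μ (perN k₀ m))
    (p₀ : MvPolynomial (Fin m × Fin m) (RatFunc k₀)) (hp₀ : p₀ ≠ 0)
    (pj : T → MvPolynomial (Fin m × Fin m) (RatFunc k₀))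
    (hrel : ∀ u, p₀ * (pderiv u f * A.det * A.det) = ∑ j, pj j * Hu A b u (j : Fin N)) :
    m ^ 3 ≤ 57120000 * (δ * N) := by
  classical
  obtain ⟨q, ℓ, k, p, D, hk2, hmm, hq, hmN, hD, hD1, hD2, hk⟩ := exists_params m (by omega)
  obtain ⟨S, y, hS, hy, hz, hyS, -, -⟩ :=
    exists_subst2 (AlgebraicClosure k₀) hk2 hmm hq m hmN
  have hcard : Fintype.card (Id2 q (2 ^ ℓ) k) = D := by
    rw [hD]
    simp [Id2, Fintype.card_prod]
  have hx : 2 ^ ℓ * 2 ^ ℓ = 2 * k := hmm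
  have hDq : D = 2 * (q * k) ^ 2 := by
    rw [hD, hx]; ring
  have hkm : k ≤ m := by
    have h1 : k ^ 2 ≤ m ^ 2 := by
      refine le_trans ?_ hD2
      rw [hDq, mul_pow]
      have : 1 ≤ q ^ 2 := Nat.one_le_pow _ _ hq
      nlinarith
    exact (Nat.pow_le_pow_iff_left (by norm_num)).1 h1
  have hkD : k ≤ D := by
    rw [hDq]
    have h1 : k ≤ q * k := Nat.le_mul_of_pos_left k hq
    nlinarith
  obtain ⟨G, hG1, hG2⟩ := lift_poly f (perN k₀ m) hf
  rw [Pool.Agent.H546R2.SL.map_perN] at hG2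
  set φ := rmap (algebraMap k₀ (AlgebraicClosure k₀)) with hφ
  have hinj : Function.Injective (map (σ := Fin m × Fin m) φ) :=
    map_injective _ φ.injective
  have hdetmap : (A.map (map φ)).det = map φ A.det := by
    rw [RingHom.map_det, RingHom.mapMatrix_apply]
  have h2t : 1 ≤ 2 ^ t₀ := Nat.one_le_two_pow
  have hm2 : m ≤ 2 ^ t₀ * m := Nat.le_mul_of_pos_left m h2t
  obtain ⟨r, M₀, hr, h⟩ := coreB (perN (AlgebraicClosure k₀) m) G hG2 (2 ^ t₀ * m)
    (by rw [hG1]; exact (totalDegree_map_le' _ _).trans hfdeg) S hS y (k - 1) hy hz hyS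
    (A.map (map φ)) (fun i => map φ (b i)) δ
    (fun i j => (totalDegree_map_le' _ _).trans (hA i j))
    (fun i => (totalDegree_map_le' _ _).trans (hb i))
    (by rw [hdetmap]; exact fun h => hdet (hinj (by rw [h, map_zero])))
    (fun j : T => (j : Fin N)) (map φ p₀) (fun h => hp₀ (hinj (by rw [h, map_zero])))
    (fun j => map φ (pj j))
    (fun u => by
      have h1 := congrArg (map φ) (hrel u)
      rw [map_mul, map_mul, map_mul, ← pderiv_map', ← hG1, map_sum, ← hdetmap] at h1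
      rw [h1]
      refine Finset.sum_congr rfl fun j _ => ?_
      rw [map_mul, Hu_map])
    (D - 1) (by rw [hcard]; omega) (2 ^ t₀ * m) (by omega) (by omega)
  rw [Fintype.card_coe] at hr
  have h1 := lead_ineq (D - 1) N r M₀ (k - 1) (2 ^ t₀ * m) δ (N / D + 1) h (by omega) hδ
  have hDD : D - 1 + 1 = D := by omega
  have hr2 : (20 + 2 * t₀) * r ≤ D := by
    have e1 : (5440 + 544 * t₀) * r ≤ (5440 + 544 * t₀) * T.card := Nat.mul_le_mul_left _ hr
    have e2 : (5440 + 544 * t₀) * r = 272 * ((20 + 2 * t₀) * r) := by ring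
    omega
  have h2 := degree_leT t₀ (D - 1) N r (k - 1) (2 ^ t₀ * m) δ (N / D + 1) (by rw [hDD])
    (by omega) (by omega) (by omega) (by omega) (by
      have e1 : m ≤ 1750 * (k - 1) := by omega
      calc 2 ^ t₀ * m ≤ 2 ^ t₀ * (1750 * (k - 1)) := Nat.mul_le_mul_left _ e1
        _ = 1750 * 2 ^ t₀ * (k - 1) := by ring) hδ h1
  -- final arithmetic
  have h3 : N / D * D ≤ N := Nat.div_mul_le_self N D
  have h4 : (k - 1) * D ≤ 60 * (δ * (N / D + 1)) * D := Nat.mul_le_mul_right D h2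
  have h5 : 60 * (δ * (N / D + 1)) * D = 60 * δ * (N / D * D) + 60 * δ * D := by ring
  have h6 : 60 * δ * (N / D * D) ≤ 60 * δ * N := Nat.mul_le_mul_left _ h3
  have h7 : 120 * δ ≤ k - 1 := by omega
  have h8 : 120 * δ * D ≤ (k - 1) * D := Nat.mul_le_mul_right D h7
  have h9 : (k - 1) * D ≤ 120 * (δ * N) := by
    have e1 : 60 * δ * N = 60 * (δ * N) := by ring
    have e2 : 120 * δ * D = 2 * (60 * δ * D) := by ring
    omega
  have h10 : m ^ 3 ≤ 1750 * (k - 1) * (272 * D) := by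
    calc m ^ 3 = m * m ^ 2 := by ring
      _ ≤ 1750 * (k - 1) * (272 * D) := Nat.mul_le_mul (by omega) hD1
  calc m ^ 3 ≤ 1750 * (k - 1) * (272 * D) := h10
    _ = 476000 * ((k - 1) * D) := by ring
    _ ≤ 476000 * (120 * (δ * N)) := Nat.mul_le_mul_left _ h9
    _ = 57120000 * (δ * N) := by ring

end Pool.Agent.W943.Few
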