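import Pool.Agent.W944.Elim
import Pool.Agent.W944.Smooth

/-! # Specializations of a polynomial ring to zero, and dimensions of products of spaces -/

set_option autoImplicit false
set_option linter.unusedSectionVars false

open Module MvPolynomial

namespace Pool.Agent.W943.Few

open Pool.Agent.W944 Pool.Agent.W944.Cx
open Pool.Agent.H546R2.SL (finrank_span_mul pow_mono_of_one_mem)

section Mono

variable {K A : Type*} [Field K] [CommRing A] [Algebra K A]

lemma dm_mono_ne [IsDomain A] {X Y Z : Submodule K A} (hX : X.FG) (hY : Y.FG) (hZ : Z.FG)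
    (h1 : (1 : A) ∈ X) (y z : A) (hy : y ∈ Y) (hy0 : y ≠ 0) (hz : z ∈ Z) (hz0 : z ≠ 0)
    {a b c a' b' c' : ℕ} (ha : a ≤ a') (hb : b ≤ b') (hc : c ≤ c') :
    dm X Y Z a b c ≤ dm X Y Z a' b' c' := by
  obtain ⟨i, rfl⟩ := Nat.exists_eq_add_of_le ha
  obtain ⟨j, rfl⟩ := Nat.exists_eq_add_of_le hb
  obtain ⟨k, rfl⟩ := Nat.exists_eq_add_of_le hc
  have : FiniteDimensional K ↥(pr X Y Z (a + i) (b + j) (c + k)) :=
    Module.Finite.iff_fg.mpr (pr_fg hX hY hZ _ _ _)
  unfold dm
  rw [← finrank_span_mul (K := K) (y ^ j * z ^ k) (mul_ne_zero (pow_ne_zero _ hy0)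
    (pow_ne_zero _ hz0)) (pr X Y Z a b c)]
  apply Submodule.finrank_mono
  have h2 : Submodule.span K {y ^ j * z ^ k} ≤ Y ^ j * Z ^ k := by
    rw [Submodule.span_singleton_le_iff_mem]
    exact Submodule.mul_mem_mul (Submodule.pow_mem_pow _ hy _) (Submodule.pow_mem_pow _ hz _)
  calc Submodule.span K {y ^ j * z ^ k} * pr X Y Z a b c
      ≤ (Y ^ j * Z ^ k) * (X ^ (a + i) * Y ^ b * Z ^ c) := by
        apply mul_le_mul' h2
        unfold pr
        exact mul_le_mul' (mul_le_mul' (pow_mono_of_one_mem X h1 (Nat.le_add_right _ _)) le_rfl)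
          le_rfl
    _ = pr X Y Z (a + i) (b + j) (c + k) := by unfold pr; ring

end Mono

section Kill

variable {L : Type*} [Field L] {F : Type*} [Field F] [Algebra L F] {κ : Type*} [DecidableEq κ]

/-- substitution of zero for the variables in `S` -/
noncomputable def ks (S : Finset κ) : MvPolynomial κ F →ₐ[F] MvPolynomial κ F :=
  aeval fun i => if i ∈ S then 0 else X i

lemma ks_X_mem {S : Finset κ} {i : κ} (h : i ∈ S) : ks (F := F) S (X i) = 0 := by
  unfold ks
  rw [aeval_X, if_pos h]

lemma ks_X_notMem {S : Finset κ} {i : κ} (h : i ∉ S) : ks (F := F) S (X i) = X i := by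
  unfold ks
  rw [aeval_X, if_neg h]

lemma ks_comp (S : Finset κ) (i : κ) :
    (ks (F := F) {i}).comp (ks S) = ks (insert i S) := by
  apply algHom_ext
  intro j
  rw [AlgHom.comp_apply]
  by_cases h1 : j ∈ S
  · rw [ks_X_mem h1, map_zero, ks_X_mem (Finset.mem_insert_of_mem h1)]
  · rw [ks_X_notMem h1]
    by_cases h2 : j = i
    · subst h2
      rw [ks_X_mem (Finset.mem_singleton_self _), ks_X_mem (Finset.mem_insert_self _ _)]
    · rw [ks_X_notMem (by rwa [Finset.mem_singleton]), ks_X_notMem]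
      rw [Finset.mem_insert]
      rintro (h | h)
      · exact h2 h
      · exact h1 h

variable (L) in
/-- the substitution as a linear map over the small field -/
noncomputable def kl (S : Finset κ) : MvPolynomial κ F →ₐ[L] MvPolynomial κ F :=
  (ks S).restrictScalars L

lemma kl_apply (S : Finset κ) (x : MvPolynomial κ F) : kl L S x = ks S x := rfl

lemma map_kl_comp (S : Finset κ) (i : κ) (X : Submodule L (MvPolynomial κ F)) :
    (X.map (kl L S).toLinearMap).map (kl L {i}).toLinearMap =
      X.map (kl L (insert i S)).toLinearMap := by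
  rw [← Submodule.map_comp]
  congr 1
  apply LinearMap.ext
  intro x
  change ks {i} (ks S x) = ks (insert i S) x
  rw [← ks_comp]
  rfl

/-- the dimensions after the specialization -/
noncomputable def DS (X Y Z : Submodule L (MvPolynomial κ F)) (S : Finset κ) (a b c : ℕ) : ℕ :=
  dm (X.map (kl L S).toLinearMap) (Y.map (kl L S).toLinearMap) (Z.map (kl L S).toLinearMap) a b c

variable {X₀ Y Z : Submodule L (MvPolynomial κ F)}

lemma DS_insert (S : Finset κ) (i : κ) (a b c : ℕ) : DS X₀ Y Z (insert i S) a b c =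
    dm ((X₀.map (kl L S).toLinearMap).map (kl L {i}).toLinearMap)
      ((Y.map (kl L S).toLinearMap).map (kl L {i}).toLinearMap)
      ((Z.map (kl L S).toLinearMap).map (kl L {i}).toLinearMap) a b c := by
  unfold DS
  rw [map_kl_comp, map_kl_comp, map_kl_comp]

lemma DS_insert_le (hX : X₀.FG) (hY : Y.FG) (hZ : Z.FG) (S : Finset κ) (i : κ) (a b c : ℕ) :
    DS X₀ Y Z (insert i S) a b c ≤ DS X₀ Y Z S a b c := by
  rw [DS_insert]
  exact dm_map_le _ (hX.map _) (hY.map _) (hZ.map _) _ _ _

lemma DS_step (hX : X₀.FG) (hY : Y.FG) (hZ : Z.FG) (S : Finset κ) (i : κ) (hi : i ∉ S)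
    (α β γ : ℕ) (q : MvPolynomial κ F) (hq : q ∈ X₀ ^ α * Y ^ β * Z ^ γ) (g : F) (hg : g ≠ 0)
    (hqS : ks S q = C g * X i) (a b c : ℕ) :
    DS X₀ Y Z (insert i S) (a + α) (b + β) (c + γ) + DS X₀ Y Z S a b c ≤
      DS X₀ Y Z S (a + α) (b + β) (c + γ) := by
  rw [DS_insert]
  apply dm_step (kl L {i}) (hX.map _) (hY.map _) (hZ.map _) (C g * X i) _ _ α β γ
  · rw [← Submodule.map_pow, ← Submodule.map_pow, ← Submodule.map_pow, ← Submodule.map_mul,
      ← Submodule.map_mul]
    exact ⟨q, hq, hqS⟩
  · exact mul_ne_zero ((map_ne_zero_iff _ (C_injective _ _)).mpr hg) (X_ne_zero _)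
  · rw [kl_apply, map_mul, ks_X_mem (Finset.mem_singleton_self _), mul_zero]

/-- a chain of steps of the same type -/
lemma DS_chain (hX : X₀.FG) (hY : Y.FG) (hZ : Z.FG) (α β γ : ℕ) (T : Finset κ) :
    ∀ S : Finset κ, Disjoint S T →
    (∀ i ∈ T, ∀ S' : Finset κ, S ⊆ S' → i ∉ S' →
      ∃ q ∈ X₀ ^ α * Y ^ β * Z ^ γ, ∃ g : F, g ≠ 0 ∧ ks S' q = C g * X i) →
    (∀ a b c t : ℕ, DS X₀ Y Z (S ∪ T) a b c ≤
      DS X₀ Y Z (S ∪ T) (a + t * α) (b + t * β) (c + t * γ)) →
    ∀ t a b c, (t + T.card).choose T.card * DS X₀ Y Z (S ∪ T) a b c ≤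
      DS X₀ Y Z S (a + t * α) (b + t * β) (c + t * γ) := by
  classical
  induction T using Finset.induction_on with
  | empty =>
    intro S _ _ hmono t a b c
    rw [Finset.card_empty, Nat.choose_zero_right, one_mul]
    have h := hmono a b c t
    rw [Finset.union_empty] at h ⊢
    exact h
  | insert j T hj ih =>
    intro S hST hq hmono
    rw [Finset.disjoint_insert_right] at hST
    have hU : S ∪ insert j T = insert j S ∪ T := by
      rw [Finset.union_insert, Finset.insert_union]
    rw [hU] at hmono ⊢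
    have ih' := ih (insert j S) (by
      rw [Finset.disjoint_insert_left]
      exact ⟨hj, hST.2⟩) (fun i hi S' hS' hiS' => hq i (Finset.mem_insert_of_mem hi) S'
        ((Finset.subset_insert _ _).trans hS') hiS') hmono
    obtain ⟨q, hqm, g, hg, hqS⟩ := hq j (Finset.mem_insert_self _ _) S subset_rfl hST.1
    rw [Finset.card_insert_of_notMem hj]
    intro t
    induction t with
    | zero =>
      intro a b c
      have h2 := ih' 0 a b c
      rw [zero_add, Nat.choose_self] at h2 ⊢
      exact h2.trans (DS_insert_le hX hY hZ _ _ _ _ _)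
    | succ t iht =>
      intro a b c
      have h2 := ih' (t + 1) a b c
      have h3 := DS_step hX hY hZ S j hST.1 α β γ q hqm g hg hqS (a + t * α) (b + t * β)
        (c + t * γ)
      have h4 := iht a b c
      have h5 : (t + 1 + (T.card + 1)).choose (T.card + 1) =
          (t + 1 + T.card).choose T.card + (t + (T.card + 1)).choose (T.card + 1) := by
        have : t + 1 + (T.card + 1) = (t + 1 + T.card) + 1 := by ring
        rw [this, Nat.choose_succ_succ]
        congr 2
        ring
      rw [h5, add_mul]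
      have e1 : a + (t + 1) * α = a + t * α + α := by ring
      have e2 : b + (t + 1) * β = b + t * β + β := by ring
      have e3 : c + (t + 1) * γ = c + t * γ + γ := by ring
      rw [e1, e2, e3] at h2 ⊢
      omega

end Kill

end Pool.Agent.W943.Few
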