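import Pool.Agent.W943.Few.F10

/-! # The inequality for limits: the substitution over rational functions in the parameter -/

set_option autoImplicit false
set_option linter.unusedSectionVars false

open Module MvPolynomial

namespace Pool.Agent.W943.Few

open Pool.Agent.W944
open Pool.Agent.H632R2.Border (spec mem_spec spec_fg spec_pow_le map_aeval_comm O0 φ0 ψ0 φψ
  totalDegree_map_le mem_O0)

section Trans

variable {K : Type*} [Field K] [Infinite K] {σ ι : Type*}

/-- the substitution over the valuation ring -/
noncomputable def ηO (S : σ → MvPolynomial ι K) (c : σ → K) :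
    MvPolynomial σ (O0 K) →+* MvPolynomial ι (O0 K) :=
  (aeval (R := O0 K) (SO S c)).toRingHom

/-- the substitution over the rational functions -/
noncomputable def ηL (S : σ → MvPolynomial ι K) (c : σ → K) :
    MvPolynomial σ (RatFunc K) →+* MvPolynomial ι (RatFunc K) :=
  (aeval (R := RatFunc K) (fun v => map (O0 K).subtype (SO S c v))).toRingHom

lemma φ_ηO (S : σ → MvPolynomial ι K) (c : σ → K) (p : MvPolynomial σ (O0 K)) :
    map (φ0 K) (ηO S c p) = aeval S (map (φ0 K) p) := by
  change map (φ0 K) (aeval (SO S c) p) = _
  rw [map_aeval_comm]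
  have h2 : (fun v => map (φ0 K) (SO S c v)) = S := funext (map_SO S c)
  rw [h2]

lemma map_ηO (S : σ → MvPolynomial ι K) (c : σ → K) (p : MvPolynomial σ (O0 K)) :
    map (O0 K).subtype (ηO S c p) = ηL S c (map (O0 K).subtype p) := by
  change map (O0 K).subtype (aeval (SO S c) p) = _
  rw [map_aeval_comm]
  rfl

lemma totalDegree_ηL (S : σ → MvPolynomial ι K) (hS : ∀ v, (S v).totalDegree ≤ 1) (c : σ → K)
    (d : ℕ) (p : MvPolynomial σ (RatFunc K)) (hp : p.totalDegree ≤ d) :
    (ηL S c p).totalDegree ≤ d := by
  change (aeval (R := RatFunc K) (fun v => map (O0 K).subtype (SO S c v)) p).totalDegree ≤ d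
  rw [p.as_sum, map_sum]
  apply totalDegree_finsetSum_le
  intro m hm
  have h2 : m.degree ≤ d := (le_totalDegree hm).trans hp
  rw [aeval_monomial, algebraMap_eq]
  refine (totalDegree_mul _ _).trans ?_
  rw [totalDegree_C, zero_add, Finsupp.prod]
  refine (totalDegree_finsetProd _ _).trans ?_
  refine le_trans ?_ h2
  rw [Finsupp.degree_apply]
  apply Finset.sum_le_sum
  intro i _
  refine (totalDegree_pow _ _).trans ?_
  calc m i * (map (O0 K).subtype (SO S c i)).totalDegree ≤ m i * 1 :=
        Nat.mul_le_mul_left _ (totalDegree_SL S hS c i)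
    _ = m i := Nat.mul_one _

/-- a generic translation does not annihilate a given polynomial -/
theorem exists_trans' (S : σ → MvPolynomial ι K) (Q : MvPolynomial σ (RatFunc K)) (hQ : Q ≠ 0) :
    ∃ c : σ → K, ηL S c Q ≠ 0 := by
  classical
  set s : σ → Set (RatFunc K) := fun v => Set.range fun c : K =>
    RatFunc.C (eval 0 (S v)) + RatFunc.X * RatFunc.C c with hs
  have hinf : ∀ v, (s v).Infinite := by
    intro v
    apply Set.infinite_range_of_injective
    intro a b hab
    have h1 : RatFunc.X * RatFunc.C a = RatFunc.X * RatFunc.C b := add_left_cancel hab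
    exact RatFunc.C.injective (mul_left_cancel₀ RatFunc.X_ne_zero h1)
  obtain ⟨x, hx, hxQ⟩ : ∃ x ∈ Set.pi Set.univ s, eval x Q ≠ 0 := by
    by_contra hcon
    push Not at hcon
    exact hQ (MvPolynomial.funext_set s hinf fun x hx => by rw [hcon x hx, map_zero])
  choose c hc using fun v => hx v (Set.mem_univ v)
  refine ⟨c, ?_⟩
  intro h0
  apply hxQ
  have h1 := congrArg (eval (0 : ι → RatFunc K)) h0
  rw [map_zero] at h1
  have h2 : eval (0 : ι → RatFunc K)
      (aeval (R := RatFunc K) (fun v => map (O0 K).subtype (SO S c v)) Q) = eval x Q := by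
    rw [← aeval_eq_eval, ← aeval_eq_eval]
    have h3 : ∀ q : MvPolynomial σ (RatFunc K), aeval (0 : ι → RatFunc K)
        (aeval (R := RatFunc K) (fun v => map (O0 K).subtype (SO S c v)) q) = aeval x q := by
      intro q
      induction q using MvPolynomial.induction_on with
      | C a => simp
      | add f g hf hg => simp only [map_add, hf, hg]
      | mul_X f v hf =>
        simp only [map_mul, hf, aeval_X]
        congr 1
        rw [← hc v]
        unfold SO
        rw [map_add, map_add, map_map, map_C]
        congr 1
        · have h3 : ∀ g : MvPolynomial ι K, aeval (0 : ι → RatFunc K)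
              (map ((O0 K).subtype.comp (ψ0 K)) g) = RatFunc.C (eval 0 g) := by
            intro g
            induction g using MvPolynomial.induction_on with
            | C a => 
              rw [map_C, aeval_C, eval_C]
              rfl
            | add f g hf hg => simp only [map_add, hf, hg]
            | mul_X f v hf => simp
          exact h3 _
        · rw [aeval_C]
          change (algebraMap (Polynomial K) (RatFunc K) Polynomial.X) * RatFunc.C (c v) = _
          rw [RatFunc.algebraMap_X]
    exact h3 Q
  rw [← h2]
  exact h1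

end Trans

end Pool.Agent.W943.Few
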