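import Pool.Agent.W943.Few.F1

/-! # The solution of a linear system and the adjoint solution: the chain of specializations -/

set_option autoImplicit false
set_option linter.unusedSectionVars false

open Module MvPolynomial

namespace Pool.Agent.W943.Few

open Pool.Agent.W944 Pool.Agent.W944.Cx
open Pool.Agent.H546R2.SL (finrank_span_mul pow_mono_of_one_mem)

section General

variable {P B : Type*} [CommRing P] [CommRing B] {N : ℕ}

lemma adj_solve (ψ : P →+* B) (M : Matrix (Fin N) (Fin N) P) (v : Fin N → B) (i : Fin N) :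
    ∑ k, ψ (M i k) * (M.adjugate.map ψ).mulVec v k = ψ M.det * v i := by
  have h1 : (M.map ψ).mulVec ((M.adjugate.map ψ).mulVec v) = ψ M.det • v := by
    rw [Matrix.mulVec_mulVec, ← Matrix.map_mul, Matrix.mul_adjugate]
    ext j
    simp [Matrix.mulVec, dotProduct, Matrix.smul_apply, Matrix.one_apply, apply_ite, ite_mul]
  have h2 := congrFun h1 i
  rw [Pi.smul_apply, smul_eq_mul] at h2
  rw [← h2]
  rfl

end General

/-- the auxiliary variables: perturbations of the right-hand side, of the adjoint right-hand side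
and of the multipliers -/
abbrev Kp (N : ℕ) (τ : Type*) : Type _ := (Fin N ⊕ Fin N) ⊕ τ

/-- the polynomial ring in the auxiliary variables -/
abbrev BB (F : Type*) [Field F] (N : ℕ) (τ : Type*) : Type _ := MvPolynomial (Kp N τ) F

section Sys

variable {L : Type*} [Field L] {ι : Type*} [Fintype ι] {F : Type*} [Field F] [Algebra L F]
  [Algebra (MvPolynomial ι L) F] [IsScalarTower L (MvPolynomial ι L) F]
  {N : ℕ} {τ : Type*} [Fintype τ] [DecidableEq τ]

variable (F τ N) in
/-- polynomials as constants -/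
noncomputable def cf : MvPolynomial ι L →+* BB F N τ :=
  algebraMap (MvPolynomial ι L) (BB F N τ)

lemma cf_eq (p : MvPolynomial ι L) :
    cf F N τ p = C (algebraMap (MvPolynomial ι L) F p) := rfl

lemma ks_cf (S : Finset (Kp N τ)) (p : MvPolynomial ι L) : ks S (cf F N τ p) = cf F N τ p := by
  rw [cf_eq]
  exact (ks S).commutes _

variable (M : Matrix (Fin N) (Fin N) (MvPolynomial ι L)) (b : Fin N → MvPolynomial ι L)
  (l : τ → Fin N) (c : τ → F) (J : Matrix τ τ F)

/-- the perturbed multipliers -/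
noncomputable def gam (j : τ) : BB F N τ :=
  C (c j) + ∑ k, C (J⁻¹ j k) * X (Sum.inr k)

/-- the perturbed adjoint right-hand side without its own perturbation -/
noncomputable def asum (i : Fin N) : BB F N τ :=
  ∑ j, if l j = i then gam c J j else 0

/-- the perturbed solution -/
noncomputable def Yv : Fin N → BB F N τ :=
  (M.adjugate.map (cf F N τ)).mulVec fun m => cf F N τ (b m) + X (Sum.inl (Sum.inl m))

/-- the perturbed adjoint solution -/
noncomputable def Zv : Fin N → BB F N τ :=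
  (M.transpose.adjugate.map (cf F N τ)).mulVec fun m => asum l c J m + X (Sum.inl (Sum.inr m))

/-- generators of the second space -/
noncomputable def yfam (o : Option (Fin N)) : BB F N τ :=
  o.elim (cf F N τ M.det) fun i => Yv M b i

/-- generators of the third space -/
noncomputable def zfam (o : Option (Fin N ⊕ τ)) : BB F N τ :=
  o.elim (cf F N τ M.det) fun x => x.elim (fun i => Zv M l c J i)
    fun j => cf F N τ M.det * gam c J j

/-- the second space -/
noncomputable def Ysp : Submodule L (BB F N τ) := Submodule.span L (Set.range (yfam M b))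

/-- the third space -/
noncomputable def Zsp : Submodule L (BB F N τ) := Submodule.span L (Set.range (zfam M l c J))

lemma Ysp_fg : (Ysp (F := F) (τ := τ) M b).FG := Submodule.fg_span (Set.finite_range _)

lemma Zsp_fg : (Zsp M l c J).FG := Submodule.fg_span (Set.finite_range _)

lemma det_mem_Y : cf F N τ M.det ∈ Ysp M b := Submodule.subset_span ⟨none, rfl⟩

lemma Yv_mem (i : Fin N) : Yv (F := F) (τ := τ) M b i ∈ Ysp M b :=
  Submodule.subset_span ⟨some i, rfl⟩

lemma det_mem_Z : cf F N τ M.det ∈ Zsp M l c J := Submodule.subset_span ⟨none, rfl⟩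

lemma Zv_mem (i : Fin N) : Zv M l c J i ∈ Zsp M l c J :=
  Submodule.subset_span ⟨some (Sum.inl i), rfl⟩

lemma gam_mem (j : τ) : cf F N τ M.det * gam c J j ∈ Zsp M l c J :=
  Submodule.subset_span ⟨some (Sum.inr j), rfl⟩

lemma cf_mem (d : ℕ) (p : MvPolynomial ι L) (hp : p.totalDegree ≤ d) :
    cf F N τ p ∈ xsp L ι (BB F N τ) ^ d :=
  algebraMap_mem_xsp_pow (R := BB F N τ) d p hp

/-! ### The equations -/

variable {M b l c J}

lemma eq_nu (i : Fin N) : ∑ k, cf F N τ (M i k) * Yv M b k - cf F N τ (b i) * cf F N τ M.det =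
    cf F N τ M.det * X (Sum.inl (Sum.inl i)) := by
  have h := adj_solve (cf F N τ) M (fun m => cf F N τ (b m) + X (Sum.inl (Sum.inl m))) i
  unfold Yv
  rw [h]
  ring

lemma eq_eta (i : Fin N) : ∑ k, cf F N τ (M k i) * Zv M l c J k -
    (∑ j, if l j = i then cf F N τ M.det * gam c J j else 0) =
    cf F N τ M.det * X (Sum.inl (Sum.inr i)) := by
  have h := adj_solve (cf F N τ) M.transpose
    (fun m => asum l c J m + X (Sum.inl (Sum.inr m))) i
  rw [Matrix.det_transpose] at h
  have h2 : (∑ j, if l j = i then cf F N τ M.det * gam c J j else 0) =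
      cf F N τ M.det * asum l c J i := by
    unfold asum
    rw [Finset.mul_sum]
    refine Finset.sum_congr rfl fun j _ => ?_
    split_ifs
    · rfl
    · rw [mul_zero]
  rw [h2]
  unfold Zv
  change ∑ k, cf F N τ (M.transpose i k) * _ - _ = _
  rw [h]
  ring

lemma memY {d : ℕ} (p : MvPolynomial ι L) (hp : p.totalDegree ≤ d) {y : BB F N τ}
    (hy : y ∈ Ysp M b) : cf F N τ p * y ∈ xsp L ι (BB F N τ) ^ d * Ysp M b ^ 1 *
      Zsp M l c J ^ 0 := by
  rw [pow_one, pow_zero, mul_one]
  exact Submodule.mul_mem_mul (cf_mem d p hp) hy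

lemma memZ {d : ℕ} (p : MvPolynomial ι L) (hp : p.totalDegree ≤ d) {z : BB F N τ}
    (hz : z ∈ Zsp M l c J) : cf F N τ p * z ∈ xsp L ι (BB F N τ) ^ d * Ysp M b ^ 0 *
      Zsp M l c J ^ 1 := by
  rw [pow_one, pow_zero, mul_one]
  exact Submodule.mul_mem_mul (cf_mem d p hp) hz

lemma memYZ {d : ℕ} (p : MvPolynomial ι L) (hp : p.totalDegree ≤ d) {y z : BB F N τ}
    (hy : y ∈ Ysp M b) (hz : z ∈ Zsp M l c J) :
    cf F N τ p * y * z ∈ xsp L ι (BB F N τ) ^ d * Ysp M b ^ 1 * Zsp M l c J ^ 1 := by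
  rw [pow_one, pow_one]
  exact Submodule.mul_mem_mul (Submodule.mul_mem_mul (cf_mem d p hp) hy) hz

lemma mem_nu {δ : ℕ} (hM : ∀ i j, (M i j).totalDegree ≤ δ) (hb : ∀ i, (b i).totalDegree ≤ δ)
    (i : Fin N) : cf F N τ M.det * X (Sum.inl (Sum.inl i)) ∈
      xsp L ι (BB F N τ) ^ δ * Ysp M b ^ 1 * Zsp M l c J ^ 0 := by
  rw [← eq_nu (b := b)]
  apply Submodule.sub_mem
  · exact Submodule.sum_mem _ fun k _ => memY _ (hM i k) (Yv_mem _ _ k)
  · exact memY _ (hb i) (det_mem_Y _ _)

lemma mem_eta {δ : ℕ} (hM : ∀ i j, (M i j).totalDegree ≤ δ)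
    (i : Fin N) : cf F N τ M.det * X (Sum.inl (Sum.inr i)) ∈
      xsp L ι (BB F N τ) ^ δ * Ysp M b ^ 0 * Zsp M l c J ^ 1 := by
  rw [← eq_eta (l := l) (c := c) (J := J)]
  apply Submodule.sub_mem
  · exact Submodule.sum_mem _ fun k _ => memZ _ (hM k i) (Zv_mem _ _ _ _ k)
  · refine Submodule.sum_mem _ fun j _ => ?_
    split_ifs
    · have h := memZ (b := b) (F := F) (τ := τ) (d := δ) (1 : MvPolynomial ι L)
        (by rw [totalDegree_one]; exact Nat.zero_le _) (gam_mem M l c J j)
      rw [map_one, one_mul] at h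
      exact h
    · exact Submodule.zero_mem _

variable (M b) in
/-- the derivative of the solution, times the square of the determinant -/
noncomputable def Hv (Mv : Matrix (Fin N) (Fin N) (MvPolynomial ι L))
    (bv : Fin N → MvPolynomial ι L) : Fin N → MvPolynomial ι L :=
  M.adjugate.mulVec fun i => M.det * bv i - (Mv.mulVec (M.adjugate.mulVec b)) i

variable (M b l c J) in
/-- the bilinear expression -/
noncomputable def qv (Mv : Matrix (Fin N) (Fin N) (MvPolynomial ι L))
    (bv : Fin N → MvPolynomial ι L) : BB F N τ :=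
  ∑ i, Zv M l c J i * (cf F N τ M.det * cf F N τ (bv i) -
    ∑ m, cf F N τ (Mv i m) * Yv M b m)

lemma qv_mem {d : ℕ} (Mv : Matrix (Fin N) (Fin N) (MvPolynomial ι L))
    (bv : Fin N → MvPolynomial ι L) (hM : ∀ i j, (Mv i j).totalDegree ≤ d)
    (hb : ∀ i, (bv i).totalDegree ≤ d) : qv M b l c J Mv bv ∈
      xsp L ι (BB F N τ) ^ d * Ysp M b ^ 1 * Zsp M l c J ^ 1 := by
  unfold qv
  refine Submodule.sum_mem _ fun i _ => ?_
  rw [mul_sub, Finset.mul_sum]
  apply Submodule.sub_mem
  · have h := memYZ (bv i) (hb i) (det_mem_Y (F := F) (τ := τ) M b) (Zv_mem M l c J i)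
    have e : Zv M l c J i * (cf F N τ M.det * cf F N τ (bv i)) =
      cf F N τ (bv i) * cf F N τ M.det * Zv M l c J i := by ring
    rw [e]
    exact h
  · refine Submodule.sum_mem _ fun m _ => ?_
    have h := memYZ (Mv i m) (hM i m) (Yv_mem (F := F) (τ := τ) M b m) (Zv_mem M l c J i)
    have e : Zv M l c J i * (cf F N τ (Mv i m) * Yv M b m) =
      cf F N τ (Mv i m) * Yv M b m * Zv M l c J i := by ring
    rw [e]
    exact h

lemma ks_Yv (S : Finset (Kp N τ)) (hS : ∀ m, Sum.inl (Sum.inl m) ∈ S) (i : Fin N) :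
    ks S (Yv (F := F) M b i) = cf F N τ (M.adjugate.mulVec b i) := by
  have h0 : Yv (F := F) (τ := τ) M b i = ∑ m, cf F N τ (M.adjugate i m) *
      (cf F N τ (b m) + X (Sum.inl (Sum.inl m))) := rfl
  have h1 : M.adjugate.mulVec b i = ∑ m, M.adjugate i m * b m := rfl
  rw [h0, h1, map_sum, map_sum]
  refine Finset.sum_congr rfl fun m _ => ?_
  rw [map_mul, map_add, ks_X_mem (hS m), add_zero, ks_cf, ks_cf, map_mul]

lemma ks_Zv (S : Finset (Kp N τ)) (hS : ∀ m, Sum.inl (Sum.inr m) ∈ S) (i : Fin N) :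
    ks S (Zv M l c J i) = ∑ m, cf F N τ (M.adjugate m i) * ks S (asum l c J m) := by
  have h0 : Zv M l c J i = ∑ m, cf F N τ (M.transpose.adjugate i m) *
      (asum l c J m + X (Sum.inl (Sum.inr m))) := rfl
  rw [h0, map_sum]
  refine Finset.sum_congr rfl fun m _ => ?_
  rw [map_mul, map_add, ks_X_mem (hS m), add_zero, ks_cf,
    ← Matrix.adjugate_transpose, Matrix.transpose_apply]

lemma ks_qv (S : Finset (Kp N τ)) (hS1 : ∀ m, Sum.inl (Sum.inl m) ∈ S)
    (hS2 : ∀ m, Sum.inl (Sum.inr m) ∈ S) (Mv : Matrix (Fin N) (Fin N) (MvPolynomial ι L))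
    (bv : Fin N → MvPolynomial ι L) :
    ks S (qv M b l c J Mv bv) = ∑ j, ks S (gam c J j) * cf F N τ (Hv M b Mv bv (l j)) := by
  unfold qv
  rw [map_sum]
  have h1 : ∀ i, ks S (Zv M l c J i * (cf F N τ M.det * cf F N τ (bv i) -
      ∑ m, cf F N τ (Mv i m) * Yv M b m)) =
      ∑ m, ks S (asum l c J m) * cf F N τ (M.adjugate m i *
        (M.det * bv i - (Mv.mulVec (M.adjugate.mulVec b)) i)) := by
    intro i
    rw [map_mul, ks_Zv S hS2, map_sub, map_mul, ks_cf, ks_cf, map_sum]
    have h2 : ∑ m, ks S (cf F N τ (Mv i m) * Yv M b m) =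
        cf F N τ ((Mv.mulVec (M.adjugate.mulVec b)) i) := by
      have h3 : (Mv.mulVec (M.adjugate.mulVec b)) i = ∑ m, Mv i m * M.adjugate.mulVec b m := rfl
      rw [h3, map_sum]
      refine Finset.sum_congr rfl fun m _ => ?_
      rw [map_mul, ks_cf, ks_Yv S hS1, map_mul]
    rw [h2, Finset.sum_mul]
    refine Finset.sum_congr rfl fun m _ => ?_
    rw [map_mul, map_sub, map_mul]
    ring
  rw [Finset.sum_congr rfl fun i _ => h1 i, Finset.sum_comm]
  have h4 : ∀ m, ∑ i, ks S (asum l c J m) * cf F N τ (M.adjugate m i *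
      (M.det * bv i - (Mv.mulVec (M.adjugate.mulVec b)) i)) =
      ks S (asum l c J m) * cf F N τ (Hv M b Mv bv m) := by
    intro m
    have h5 : Hv M b Mv bv m = ∑ i, M.adjugate m i *
        (M.det * bv i - (Mv.mulVec (M.adjugate.mulVec b)) i) := rfl
    rw [h5, map_sum, Finset.mul_sum]
  rw [Finset.sum_congr rfl fun m _ => h4 m]
  unfold asum
  simp only [map_sum, Finset.sum_mul]
  rw [Finset.sum_comm]
  refine Finset.sum_congr rfl fun j _ => ?_
  rw [Finset.sum_eq_single (l j)]
  · rw [if_pos rfl]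
  · intro m _ hm
    rw [if_neg (Ne.symm hm), map_zero, zero_mul]
  · intro h; exact absurd (Finset.mem_univ _) h

lemma ks_gam (S : Finset (Kp N τ)) (j : τ) :
    ks S (gam (N := N) c J j) = C (c j) + ∑ k, C (J⁻¹ j k) * ks S (X (Sum.inr k)) := by
  unfold gam
  rw [map_add, map_sum]
  congr 1
  · exact (ks S).commutes _
  · refine Finset.sum_congr rfl fun k _ => ?_
    rw [map_mul]
    congr 1
    exact (ks S).commutes _

end Sys

end Pool.Agent.W943.Few
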