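import Pool.Agent.W943.Few.F2

/-! # The dimension inequality for functions of few coordinates of the solution -/

set_option autoImplicit false
set_option linter.unusedSectionVars false

open Module MvPolynomial

namespace Pool.Agent.W943.Few

open Pool.Agent.W944 Pool.Agent.W944.Cx
open Pool.Agent.H546R2.SL (finrank_span_mul pow_mono_of_one_mem)

section Sys

variable {L : Type*} [Field L] {ι : Type*} [Fintype ι] {F : Type*} [Field F] [Algebra L F]
  [Algebra (MvPolynomial ι L) F] [IsScalarTower L (MvPolynomial ι L) F]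
  {N : ℕ} {τ : Type*} [Fintype τ] [DecidableEq τ]
  {M : Matrix (Fin N) (Fin N) (MvPolynomial ι L)} {b : Fin N → MvPolynomial ι L}
  {l : τ → Fin N} {c : τ → F}

/-- the relation for one direction -/
def Rel (M : Matrix (Fin N) (Fin N) (MvPolynomial ι L)) (b : Fin N → MvPolynomial ι L)
    (l : τ → Fin N) (c : τ → F) (Mv : Matrix (Fin N) (Fin N) (MvPolynomial ι L))
    (bv : Fin N → MvPolynomial ι L) (pv : MvPolynomial ι L) : Prop :=
  algebraMap (MvPolynomial ι L) F (pv * M.det * M.det) =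
    ∑ j, c j * algebraMap (MvPolynomial ι L) F (Hv M b Mv bv (l j))

lemma mem_theta {e : ℕ} {J : Matrix τ τ F} {Mv : Matrix (Fin N) (Fin N) (MvPolynomial ι L)}
    {bv : Fin N → MvPolynomial ι L} {pv : MvPolynomial ι L}
    (hMv : ∀ i j, (Mv i j).totalDegree ≤ e) (hbv : ∀ i, (bv i).totalDegree ≤ e)
    (hpv : pv.totalDegree ≤ e) :
    qv M b l c J Mv bv - cf F N τ pv * cf F N τ M.det * cf F N τ M.det ∈
      xsp L ι (BB F N τ) ^ e * Ysp M b ^ 1 * Zsp M l c J ^ 1 :=
  Submodule.sub_mem _ (qv_mem Mv bv hMv hbv)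
    (memYZ pv hpv (det_mem_Y (F := F) (τ := τ) M b) (det_mem_Z M l c J))

lemma ks_theta {J : Matrix τ τ F} (hJ : IsUnit J.det) (k : τ)
    {Mv : Matrix (Fin N) (Fin N) (MvPolynomial ι L)}
    {bv : Fin N → MvPolynomial ι L} {pv : MvPolynomial ι L}
    (hJk : ∀ j, J k j = algebraMap (MvPolynomial ι L) F (Hv M b Mv bv (l j)))
    (hrel : Rel M b l c Mv bv pv) (S : Finset (Kp N τ))
    (hS1 : ∀ m, Sum.inl (Sum.inl m) ∈ S) (hS2 : ∀ m, Sum.inl (Sum.inr m) ∈ S) :
    ks S (qv M b l c J Mv bv - cf F N τ pv * cf F N τ M.det * cf F N τ M.det) =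
      ks S (X (Sum.inr k)) := by
  rw [map_sub, ks_qv S hS1 hS2, ← map_mul, ← map_mul, ks_cf, cf_eq (pv * M.det * M.det)]
  unfold Rel at hrel
  rw [hrel, map_sum, ← Finset.sum_sub_distrib]
  have h1 : ∀ j, ks S (gam c J j) * cf F N τ (Hv M b Mv bv (l j)) -
      C (c j * algebraMap (MvPolynomial ι L) F (Hv M b Mv bv (l j))) =
      ∑ k', C (J k j * J⁻¹ j k') * ks S (X (Sum.inr k')) := by
    intro j
    rw [ks_gam, cf_eq, ← hJk, add_mul, ← C_mul, add_sub_cancel_left, Finset.sum_mul]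
    refine Finset.sum_congr rfl fun k' _ => ?_
    rw [C_mul]
    ring
  rw [Finset.sum_congr rfl fun j _ => h1 j, Finset.sum_comm]
  have h2 : ∀ k', ∑ j, C (J k j * J⁻¹ j k') * ks S (X (Sum.inr k') : BB F N τ) =
      C ((1 : Matrix τ τ F) k k') * ks S (X (Sum.inr k')) := by
    intro k'
    rw [← Finset.sum_mul, ← map_sum]
    congr 2
    rw [← Matrix.mul_nonsing_inv J hJ]
    rfl
  rw [Finset.sum_congr rfl fun k' _ => h2 k', Finset.sum_eq_single k]
  · rw [Matrix.one_apply_eq, C_1, one_mul]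
  · intro k' _ hk'
    rw [Matrix.one_apply_ne (Ne.symm hk'), C_0, zero_mul]
  · intro h; exact absurd (Finset.mem_univ _) h

lemma one_mem_X : (1 : BB F N τ) ∈ xsp L ι (BB F N τ) := one_mem_xsp

/-- monotonicity after a specialization -/
lemma DS_mono (hdet : algebraMap (MvPolynomial ι L) F M.det ≠ 0) (J : Matrix τ τ F)
    (S : Finset (Kp N τ)) {a b' c' a₁ b₁ c₁ : ℕ} (ha : a ≤ a₁) (hb : b' ≤ b₁) (hc : c' ≤ c₁) :
    DS (xsp L ι (BB F N τ)) (Ysp M b) (Zsp M l c J) S a b' c' ≤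
      DS (xsp L ι (BB F N τ)) (Ysp M b) (Zsp M l c J) S a₁ b₁ c₁ := by
  unfold DS
  have hne : cf F N τ M.det ≠ 0 := by
    rw [cf_eq]
    exact (map_ne_zero_iff _ (C_injective _ _)).mpr hdet
  refine dm_mono_ne (xsp_fg.map _) ((Ysp_fg M b).map _) ((Zsp_fg M l c J).map _) ?_
    (cf F N τ M.det) (cf F N τ M.det) ?_ hne ?_ hne ha hb hc
  · exact ⟨1, one_mem_xsp, map_one (kl L S)⟩
  · exact ⟨_, det_mem_Y M b, ks_cf S _⟩
  · exact ⟨_, det_mem_Z M l c J, ks_cf S _⟩

/-- the three groups of auxiliary variables -/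
def Tn (N : ℕ) (τ : Type*) [DecidableEq τ] : Finset (Kp N τ) :=
  Finset.univ.image fun i => Sum.inl (Sum.inl i)

/-- the three groups of auxiliary variables -/
def Te (N : ℕ) (τ : Type*) [DecidableEq τ] : Finset (Kp N τ) :=
  Finset.univ.image fun i => Sum.inl (Sum.inr i)

/-- the three groups of auxiliary variables -/
def Tt (N : ℕ) (τ : Type*) [Fintype τ] [DecidableEq τ] : Finset (Kp N τ) :=
  Finset.univ.image fun k => Sum.inr k

lemma card_Tn : (Tn N τ).card = N := by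
  unfold Tn
  rw [Finset.card_image_of_injective _ (fun a b h => by simpa using h), Finset.card_univ,
    Fintype.card_fin]

lemma card_Te : (Te N τ).card = N := by
  unfold Te
  rw [Finset.card_image_of_injective _ (fun a b h => by simpa using h), Finset.card_univ,
    Fintype.card_fin]

lemma card_Tt : (Tt N τ).card = Fintype.card τ := by
  unfold Tt
  rw [Finset.card_image_of_injective _ (fun a b h => by simpa using h), Finset.card_univ]

lemma mem_Tn (i : Fin N) : Sum.inl (Sum.inl i) ∈ Tn N τ :=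
  Finset.mem_image_of_mem _ (Finset.mem_univ i)

lemma mem_Te (i : Fin N) : Sum.inl (Sum.inr i) ∈ Te N τ :=
  Finset.mem_image_of_mem _ (Finset.mem_univ i)

variable {δ δ₁ e : ℕ}

/-- the three chains together -/
theorem chain3 (hM : ∀ i j, (M i j).totalDegree ≤ δ) (hb : ∀ i, (b i).totalDegree ≤ δ)
    (hdet : algebraMap (MvPolynomial ι L) F M.det ≠ 0)
    (Mk : τ → Matrix (Fin N) (Fin N) (MvPolynomial ι L)) (bk : τ → Fin N → MvPolynomial ι L)
    (pk : τ → MvPolynomial ι L) (hMk : ∀ k i j, (Mk k i j).totalDegree ≤ e)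
    (hbk : ∀ k i, (bk k i).totalDegree ≤ e) (hpk : ∀ k, (pk k).totalDegree ≤ e)
    (hrelk : ∀ k, Rel M b l c (Mk k) (bk k) (pk k)) (J : Matrix τ τ F)
    (hJk : ∀ k j, J k j = algebraMap (MvPolynomial ι L) F (Hv M b (Mk k) (bk k) (l j)))
    (hJ : IsUnit J.det) (t₁ t₂ t₃ a b' c' : ℕ) :
    (t₁ + N).choose N * ((t₂ + N).choose N * ((t₃ + Fintype.card τ).choose (Fintype.card τ) *
      DS (xsp L ι (BB F N τ)) (Ysp M b) (Zsp M l c J) Finset.univ a b' c')) ≤
    (Fintype.card ι + 1).multichoose (a + t₃ * e + t₂ * δ + t₁ * δ) *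
      (N + 1).multichoose (b' + t₃ + t₁) *
      (N + Fintype.card τ + 1).multichoose (c' + t₃ + t₂) := by
  classical
  have hne : algebraMap (MvPolynomial ι L) F M.det ≠ 0 := hdet
  have fX : (xsp L ι (BB F N τ)).FG := xsp_fg
  have fY := Ysp_fg (F := F) (τ := τ) M b
  have fZ := Zsp_fg M l c J
  have hU : Tn N τ ∪ Te N τ ∪ Tt N τ = Finset.univ := by
    ext x
    simp only [Finset.mem_union, Finset.mem_univ, iff_true]
    rcases x with (x | x) | x
    · exact Or.inl (Or.inl (mem_Tn x))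
    · exact Or.inl (Or.inr (mem_Te x))
    · exact Or.inr (Finset.mem_image_of_mem _ (Finset.mem_univ x))
  have hd12 : Disjoint (Tn N τ) (Te N τ) := by
    rw [Finset.disjoint_left]
    intro x hx hy
    obtain ⟨i, _, rfl⟩ := Finset.mem_image.mp hx
    obtain ⟨j, _, h⟩ := Finset.mem_image.mp hy
    simp at h
  have hd3 : Disjoint (Tn N τ ∪ Te N τ) (Tt N τ) := by
    rw [Finset.disjoint_left]
    intro x hx hy
    obtain ⟨k, _, rfl⟩ := Finset.mem_image.mp hy
    rcases Finset.mem_union.mp hx with h | h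
    · obtain ⟨i, _, h⟩ := Finset.mem_image.mp h
      simp at h
    · obtain ⟨i, _, h⟩ := Finset.mem_image.mp h
      simp at h
  -- the last stage
  have s3 := DS_chain fX fY fZ e 1 1 (Tt N τ) (Tn N τ ∪ Te N τ) hd3 (by
    intro x hx S' hS' hxS'
    obtain ⟨k, _, rfl⟩ := Finset.mem_image.mp hx
    refine ⟨_, mem_theta (hMk k) (hbk k) (hpk k), 1, one_ne_zero, ?_⟩
    rw [ks_theta hJ k (hJk k) (hrelk k) S'
      (fun m => hS' (Finset.mem_union_left _ (mem_Tn m)))
      (fun m => hS' (Finset.mem_union_right _ (mem_Te m))), ks_X_notMem hxS', C_1, one_mul])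
    (fun a b c t => DS_mono hne J _ (by omega) (by omega) (by omega)) t₃ a b' c'
  rw [card_Tt, hU] at s3
  -- the second stage
  have s2 := DS_chain fX fY fZ δ 0 1 (Te N τ) (Tn N τ) hd12 (by
    intro x hx S' hS' hxS'
    obtain ⟨i, _, rfl⟩ := Finset.mem_image.mp hx
    refine ⟨_, mem_eta hM i, _, hne, ?_⟩
    rw [map_mul, ks_cf, ks_X_notMem hxS', cf_eq])
    (fun a b c t => DS_mono hne J _ (by omega) (by omega) (by omega)) t₂ (a + t₃ * e)
    (b' + t₃ * 1) (c' + t₃ * 1)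
  rw [card_Te] at s2
  -- the first stage
  have s1 := DS_chain fX fY fZ δ 1 0 (Tn N τ) ∅ (Finset.disjoint_empty_left _) (by
    intro x hx S' hS' hxS'
    obtain ⟨i, _, rfl⟩ := Finset.mem_image.mp hx
    refine ⟨_, mem_nu hM hb i, _, hne, ?_⟩
    rw [map_mul, ks_cf, ks_X_notMem hxS', cf_eq])
    (fun a b c t => DS_mono hne J _ (by omega) (by omega) (by omega)) t₁ (a + t₃ * e + t₂ * δ)
    (b' + t₃ * 1 + t₂ * 0) (c' + t₃ * 1 + t₂ * 1)
  rw [card_Tn, Finset.empty_union] at s1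
  have s0 : DS (xsp L ι (BB F N τ)) (Ysp M b) (Zsp M l c J) ∅ (a + t₃ * e + t₂ * δ + t₁ * δ)
      (b' + t₃ * 1 + t₂ * 0 + t₁ * 1) (c' + t₃ * 1 + t₂ * 1 + t₁ * 0) ≤
      (Fintype.card ι + 1).multichoose (a + t₃ * e + t₂ * δ + t₁ * δ) *
      (N + 1).multichoose (b' + t₃ + t₁) *
      (N + Fintype.card τ + 1).multichoose (c' + t₃ + t₂) := by
    refine (dm_map_le (kl L ∅) fX fY fZ _ _ _).trans ?_
    have h := dm_le (K := L) (fun o : Option ι => o.elim (1 : BB F N τ)
      fun i => algebraMap (MvPolynomial ι L) (BB F N τ) (X i)) (yfam (F := F) (τ := τ) M b)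
      (zfam M l c J) (a + t₃ * e + t₂ * δ + t₁ * δ)
      (b' + t₃ * 1 + t₂ * 0 + t₁ * 1) (c' + t₃ * 1 + t₂ * 1 + t₁ * 0)
    have e1 : Fintype.card (Option ι) = Fintype.card ι + 1 := Fintype.card_option
    have e2 : Fintype.card (Option (Fin N)) = N + 1 := by rw [Fintype.card_option, Fintype.card_fin]
    have e3 : Fintype.card (Option (Fin N ⊕ τ)) = N + Fintype.card τ + 1 := by
      rw [Fintype.card_option, Fintype.card_sum, Fintype.card_fin]
    have e4 : b' + t₃ * 1 + t₂ * 0 + t₁ * 1 = b' + t₃ + t₁ := by ring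
    have e5 : c' + t₃ * 1 + t₂ * 1 + t₁ * 0 = c' + t₃ + t₂ := by ring
    rw [e1, e2, e3, e4, e5] at h
    rw [e4, e5]
    exact h
  calc _ ≤ (t₁ + N).choose N * ((t₂ + N).choose N *
        DS (xsp L ι (BB F N τ)) (Ysp M b) (Zsp M l c J) (Tn N τ ∪ Te N τ) (a + t₃ * e)
          (b' + t₃ * 1) (c' + t₃ * 1)) := Nat.mul_le_mul_left _ (Nat.mul_le_mul_left _ s3)
    _ ≤ (t₁ + N).choose N * DS (xsp L ι (BB F N τ)) (Ysp M b) (Zsp M l c J) (Tn N τ)
          (a + t₃ * e + t₂ * δ) (b' + t₃ * 1 + t₂ * 0) (c' + t₃ * 1 + t₂ * 1) :=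
        Nat.mul_le_mul_left _ s2
    _ ≤ _ := s1
    _ ≤ _ := s0

/-- the lower bound for the last dimension -/
theorem final_dim (hinj : Function.Injective (algebraMap (MvPolynomial ι L) F))
    (hdet : M.det ≠ 0) (J : Matrix τ τ F) {V : Type*} [Finite V]
    (Mw : V → Matrix (Fin N) (Fin N) (MvPolynomial ι L)) (bw : V → Fin N → MvPolynomial ι L)
    (pw : V → MvPolynomial ι L) (hMw : ∀ k i j, (Mw k i j).totalDegree ≤ δ₁)
    (hbw : ∀ k i, (bw k i).totalDegree ≤ δ₁)
    (hrelw : ∀ k, Rel M b l c (Mw k) (bw k) (pw k)) (a T : ℕ) :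
    finrank L ↥(xsp L ι (MvPolynomial ι L) ^ a * (Submodule.span L (Set.range pw)) ^ T) ≤
      DS (xsp L ι (BB F N τ)) (Ysp M b) (Zsp M l c J) Finset.univ (a + δ₁ * T) T T := by
  classical
  set ψ : MvPolynomial ι L →ₐ[L] BB F N τ := IsScalarTower.toAlgHom L (MvPolynomial ι L) (BB F N τ)
    with hψ
  have hψc : ∀ p, ψ p = cf F N τ p := fun p => rfl
  have hψinj : Function.Injective ψ := by
    intro p q h
    rw [hψc, hψc, cf_eq, cf_eq] at h
    exact hinj (C_injective _ _ h)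
  set X' := (xsp L ι (BB F N τ)).map (kl L Finset.univ).toLinearMap with hX'
  set Y' := (Ysp (F := F) (τ := τ) M b).map (kl L Finset.univ).toLinearMap with hY'
  set Z' := (Zsp M l c J).map (kl L Finset.univ).toLinearMap with hZ'
  set W := xsp L ι (MvPolynomial ι L) ^ a * (Submodule.span L (Set.range pw)) ^ T with hW
  have hxm : (xsp L ι (MvPolynomial ι L)).map ψ.toLinearMap ≤ X' := by
    unfold xsp
    rw [Submodule.map_span, Submodule.span_le]
    rintro _ ⟨_, ⟨o, rfl⟩, rfl⟩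
    cases o with
    | none =>
      refine ⟨1, one_mem_xsp, ?_⟩
      change ks _ 1 = ψ 1
      rw [map_one, map_one]
    | some i =>
      refine ⟨cf F N τ (X i), Submodule.subset_span ⟨some i, rfl⟩, ?_⟩
      exact ks_cf _ _
  have hG : ∀ v, cf F N τ M.det * cf F N τ M.det * cf F N τ (pw v) ∈ X' ^ δ₁ * Y' * Z' := by
    intro v
    have h1 := qv_mem (l := l) (c := c) (J := J) (b := b) (M := M) (Mw v) (bw v) (hMw v) (hbw v)
    have h2 := Submodule.mem_map_of_mem (f := (kl L Finset.univ).toLinearMap) h1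
    rw [Submodule.map_mul, Submodule.map_mul, Submodule.map_pow, pow_one, pow_one] at h2
    have h3 : (kl L Finset.univ).toLinearMap (qv M b l c J (Mw v) (bw v)) =
        cf F N τ M.det * cf F N τ M.det * cf F N τ (pw v) := by
      change ks Finset.univ _ = _
      rw [ks_qv _ (fun _ => Finset.mem_univ _) (fun _ => Finset.mem_univ _)]
      have h4 : ∀ j, ks Finset.univ (gam (N := N) c J j) = C (c j) := by
        intro j
        rw [ks_gam, Finset.sum_eq_zero, add_zero]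
        intro k _
        rw [ks_X_mem (Finset.mem_univ _), mul_zero]
      have h5 := hrelw v
      unfold Rel at h5
      have h6 := congrArg (C : F → BB F N τ) h5
      rw [map_sum, ← cf_eq, map_mul, map_mul] at h6
      rw [mul_comm (cf F N τ M.det * cf F N τ M.det), ← mul_assoc, h6]
      refine Finset.sum_congr rfl fun j _ => ?_
      rw [h4, C_mul, cf_eq]
    rw [h3] at h2
    exact h2
  have hne : cf F N τ M.det * cf F N τ M.det ≠ 0 := by
    have h1 : cf F N τ M.det ≠ 0 := by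
      rw [cf_eq]
      exact (map_ne_zero_iff _ (C_injective _ _)).mpr ((map_ne_zero_iff _ hinj).mpr hdet)
    exact mul_ne_zero h1 h1
  have f1 : finrank L ↥W = finrank L ↥(W.map ψ.toLinearMap) :=
    (Submodule.equivMapOfInjective ψ.toLinearMap hψinj W).finrank_eq
  rw [f1, ← finrank_span_mul (K := L) ((cf F N τ M.det * cf F N τ M.det) ^ T)
    (pow_ne_zero _ hne) (W.map ψ.toLinearMap)]
  unfold DS dm
  have : FiniteDimensional L ↥(pr X' Y' Z' (a + δ₁ * T) T T) :=
    Module.Finite.iff_fg.mpr (pr_fg (xsp_fg.map _) ((Ysp_fg M b).map _) ((Zsp_fg M l c J).map _)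
      _ _ _)
  apply Submodule.finrank_mono
  have g1 : Submodule.span L {(cf F N τ M.det * cf F N τ M.det) ^ T} *
      ((Submodule.span L (Set.range pw)).map ψ.toLinearMap) ^ T ≤ (X' ^ δ₁ * Y' * Z') ^ T := by
    have h1 : Submodule.span L {(cf F N τ M.det * cf F N τ M.det) ^ T} ≤
        (Submodule.span L {cf F N τ M.det * cf F N τ M.det}) ^ T := by
      rw [Submodule.span_singleton_le_iff_mem]
      exact Submodule.pow_mem_pow _ (Submodule.mem_span_singleton_self _) _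
    refine (mul_le_mul' h1 le_rfl).trans ?_
    rw [← mul_pow]
    apply pow_le_pow_left'
    rw [Submodule.map_span, Submodule.span_mul_span, Submodule.span_le]
    rintro _ ⟨x, hx, _, ⟨_, ⟨v, rfl⟩, rfl⟩, rfl⟩
    rw [Set.mem_singleton_iff] at hx
    subst hx
    exact hG v
  rw [hW, Submodule.map_mul, Submodule.map_pow, Submodule.map_pow]
  calc Submodule.span L {(cf F N τ M.det * cf F N τ M.det) ^ T} *
        (((xsp L ι (MvPolynomial ι L)).map ψ.toLinearMap) ^ a *
          ((Submodule.span L (Set.range pw)).map ψ.toLinearMap) ^ T)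
      = ((xsp L ι (MvPolynomial ι L)).map ψ.toLinearMap) ^ a *
          (Submodule.span L {(cf F N τ M.det * cf F N τ M.det) ^ T} *
          ((Submodule.span L (Set.range pw)).map ψ.toLinearMap) ^ T) := by ring
    _ ≤ X' ^ a * (X' ^ δ₁ * Y' * Z') ^ T := mul_le_mul' (pow_le_pow_left' hxm a) g1
    _ = pr X' Y' Z' (a + δ₁ * T) T T := by unfold pr; ring

/-- **The dimension inequality.** -/
theorem main_ineq (hinj : Function.Injective (algebraMap (MvPolynomial ι L) F))
    (hM : ∀ i j, (M i j).totalDegree ≤ δ) (hb : ∀ i, (b i).totalDegree ≤ δ)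
    (hdet : M.det ≠ 0)
    (Mk : τ → Matrix (Fin N) (Fin N) (MvPolynomial ι L)) (bk : τ → Fin N → MvPolynomial ι L)
    (pk : τ → MvPolynomial ι L) (hMk : ∀ k i j, (Mk k i j).totalDegree ≤ e)
    (hbk : ∀ k i, (bk k i).totalDegree ≤ e) (hpk : ∀ k, (pk k).totalDegree ≤ e)
    (hrelk : ∀ k, Rel M b l c (Mk k) (bk k) (pk k)) (J : Matrix τ τ F)
    (hJk : ∀ k j, J k j = algebraMap (MvPolynomial ι L) F (Hv M b (Mk k) (bk k) (l j)))
    (hJ : IsUnit J.det) {V : Type*} [Finite V]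
    (Mw : V → Matrix (Fin N) (Fin N) (MvPolynomial ι L)) (bw : V → Fin N → MvPolynomial ι L)
    (pw : V → MvPolynomial ι L) (hMw : ∀ k i j, (Mw k i j).totalDegree ≤ δ₁)
    (hbw : ∀ k i, (bw k i).totalDegree ≤ δ₁)
    (hrelw : ∀ k, Rel M b l c (Mw k) (bw k) (pw k)) (t₁ t₂ t₃ a T : ℕ) :
    (t₁ + N).choose N * ((t₂ + N).choose N * ((t₃ + Fintype.card τ).choose (Fintype.card τ) *
      finrank L ↥(xsp L ι (MvPolynomial ι L) ^ a * (Submodule.span L (Set.range pw)) ^ T))) ≤
    (Fintype.card ι + 1).multichoose (a + δ₁ * T + t₃ * e + t₂ * δ + t₁ * δ) *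
      (N + 1).multichoose (T + t₃ + t₁) *
      (N + Fintype.card τ + 1).multichoose (T + t₃ + t₂) :=
  (Nat.mul_le_mul_left _ (Nat.mul_le_mul_left _ (Nat.mul_le_mul_left _
    (final_dim hinj hdet J Mw bw pw hMw hbw hrelw a T)))).trans
  (chain3 hM hb ((map_ne_zero_iff _ hinj).mpr hdet) Mk bk pk hMk hbk hpk hrelk J hJk hJ
    t₁ t₂ t₃ _ _ _)

end Sys

end Pool.Agent.W943.Few
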