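import Pool.Agent.W943.Few.F3
import Pool.Agent.W944.Family
import Pool.Agent.H632R2.Border3

/-! # Semicontinuity, counting of monomials, and generic translations -/

set_option autoImplicit false
set_option linter.unusedSectionVars false

open Module MvPolynomial

namespace Pool.Agent.W943.Few

open Pool.Agent.W944
open Pool.Agent.H546R2.SL (exists_degree_bound)
open Pool.Agent.H632R2.Border (spec mem_spec spec_fg spec_pow_le map_aeval_comm O0 φ0 ψ0 φψ
  totalDegree_map_le mem_O0)

section Semi

variable {Ω L : Type*} [Field Ω] [Field L] {ι : Type*}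
  {O : ValuationSubring L} {φ : O →+* Ω} {j : Ω →+* O} (hj : ∀ c, φ (j c) = c)

lemma spec_mul_le (V W : Submodule L (MvPolynomial ι L)) :
    spec O φ j hj V * spec O φ j hj W ≤ spec O φ j hj (V * W) := by
  rw [Submodule.mul_le]
  rintro _ ⟨G, hG, rfl⟩ _ ⟨H, hH, rfl⟩
  refine ⟨G * H, ?_, by rw [map_mul]⟩
  rw [map_mul]
  exact Submodule.mul_mem_mul hG hH

lemma xsp_le_spec : xsp Ω ι (MvPolynomial ι Ω) ≤ spec O φ j hj (xsp L ι (MvPolynomial ι L)) := by
  unfold xsp
  rw [Submodule.span_le]
  rintro _ ⟨o, rfl⟩
  cases o with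
  | none =>
    refine ⟨1, ?_, by rw [map_one]; rfl⟩
    rw [map_one]
    exact Submodule.subset_span ⟨none, rfl⟩
  | some i =>
    refine ⟨X i, ?_, by rw [map_X]; rfl⟩
    rw [map_X]
    exact Submodule.subset_span ⟨some i, rfl⟩

include hj in
/-- semicontinuity of the dimensions of products -/
theorem semi [Fintype ι] {V W : Type*} [Finite W] (y : V → MvPolynomial ι Ω)
    (pw : W → MvPolynomial ι L)
    (hy : ∀ v, ∃ E : MvPolynomial ι O, map φ E = y v ∧
      map O.subtype E ∈ Submodule.span L (Set.range pw)) (a T : ℕ) :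
    finrank Ω ↥(xsp Ω ι (MvPolynomial ι Ω) ^ a * (Submodule.span Ω (Set.range y)) ^ T) ≤
      finrank L ↥(xsp L ι (MvPolynomial ι L) ^ a * (Submodule.span L (Set.range pw)) ^ T) := by
  have hfg : (xsp L ι (MvPolynomial ι L) ^ a * (Submodule.span L (Set.range pw)) ^ T).FG :=
    (xsp_fg.pow _).mul ((Submodule.fg_span (Set.finite_range _)).pow _)
  have h1 := spec_fg (O := O) (φ := φ) (j := j) (hj := hj) hfg
  have : FiniteDimensional Ω ↥(spec O φ j hj
      (xsp L ι (MvPolynomial ι L) ^ a * (Submodule.span L (Set.range pw)) ^ T)) :=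
    Module.Finite.iff_fg.mpr h1.1
  refine (Submodule.finrank_mono ?_).trans h1.2
  refine le_trans ?_ (spec_mul_le hj _ _)
  apply mul_le_mul'
  · exact (pow_le_pow_left' (xsp_le_spec hj) a).trans (spec_pow_le _ a)
  · refine le_trans (pow_le_pow_left' ?_ T) (spec_pow_le _ T)
    rw [Submodule.span_le]
    rintro _ ⟨v, rfl⟩
    obtain ⟨E, hE1, hE2⟩ := hy v
    exact ⟨E, hE2, hE1⟩

end Semi

section Count

variable {K : Type*} [Field K] {ι : Type*} [Fintype ι]

/-- a space of polynomials which contains many monomials -/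
lemma card_le (S : Finset (ι →₀ ℕ)) (V : Submodule K (MvPolynomial ι K)) (hV : V.FG)
    (hS : ∀ m ∈ S, (monomial m 1 : MvPolynomial ι K) ∈ V) : S.card ≤ finrank K ↥V := by
  classical
  have fdV : FiniteDimensional K ↥V := Module.Finite.iff_fg.mpr hV
  have h1 : LinearIndependent K (fun m : S => (monomial m.1 1 : MvPolynomial ι K)) := by
    have h2 := (basisMonomials ι K).linearIndependent
    rw [coe_basisMonomials] at h2
    exact h2.comp (fun m : S => m.1) Subtype.val_injective
  have h3 : LinearIndependent K (fun m : S => (⟨_, hS m.1 m.2⟩ : ↥V)) :=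
    LinearIndependent.of_comp V.subtype h1
  have h := h3.fintype_card_le_finrank
  rwa [Fintype.card_coe] at h

/-- exponents of total degree between `A` and `A + b` -/
lemma exists_expo [DecidableEq ι] (k A b : ℕ) (hι : Fintype.card ι = k + 1) :
    ∃ S : Finset (ι →₀ ℕ), (b + 1) * (A + k).choose k ≤ S.card ∧
      ∀ m ∈ S, A ≤ m.degree ∧ m.degree ≤ A + b := by
  refine ⟨(Finset.Icc A (A + b)).biUnion fun D => Finset.univ.finsuppAntidiag D, ?_, ?_⟩
  · rw [Finset.card_biUnion]
    · have h1 : ∀ D ∈ Finset.Icc A (A + b),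
          (A + k).choose k ≤ ((Finset.univ : Finset ι).finsuppAntidiag D).card := by
        intro D hD
        rw [Finset.card_finsuppAntidiag_nat_eq_choose, Finset.card_univ, hι]
        have h2 : k + 1 + D - 1 = D + k := by omega
        rw [h2]
        have h3 : (D + k).choose D = (D + k).choose k := Nat.choose_symm_of_eq_add rfl
        rw [h3]
        exact Nat.choose_le_choose _ (Nat.add_le_add_right (Finset.mem_Icc.mp hD).1 _)
      calc (b + 1) * (A + k).choose k = ∑ _D ∈ Finset.Icc A (A + b), (A + k).choose k := by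
            rw [Finset.sum_const, Nat.card_Icc, smul_eq_mul]
            congr 1
            omega
        _ ≤ _ := Finset.sum_le_sum h1
    · intro D _ D' _ hDD'
      rw [Function.onFun, Finset.disjoint_left]
      intro m hm hm'
      rw [Finset.mem_finsuppAntidiag] at hm hm'
      exact hDD' (hm.1.symm.trans hm'.1)
  · intro m hm
    simp only [Finset.mem_biUnion, Finset.mem_Icc, Finset.mem_finsuppAntidiag] at hm
    obtain ⟨D, ⟨h1, h2⟩, h3, -⟩ := hm
    rw [Finsupp.degree_eq_sum, h3]
    exact ⟨h1, h2⟩

/-- the dimension of the products of powers of forms without common zeros -/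
theorem forms_dim [IsAlgClosed K] {V : Type*} [Finite V] (y : V → MvPolynomial ι K) (e : ℕ)
    (hy : ∀ v, (y v).IsHomogeneous e)
    (hz : ∀ x : ι → K, (∀ v, eval x (y v) = 0) → x = 0) (k : ℕ) (hι : Fintype.card ι = k + 1) :
    ∃ M₀ : ℕ, ∀ B T : ℕ, (B + 1) * (e * T + k).choose k ≤
      finrank K ↥(xsp K ι (MvPolynomial ι K) ^ (M₀ + B) * (Submodule.span K (Set.range y)) ^ T) := by
  classical
  obtain ⟨M₁, hM₁⟩ := exists_degree_bound y hz
  refine ⟨M₁ + e, fun B T => ?_⟩
  obtain ⟨S, hS1, hS2⟩ := exists_expo (ι := ι) k (M₁ + e + e * T) B hι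
  refine le_trans ?_ (card_le S _ ((xsp_fg.pow _).mul
    ((Submodule.fg_span (Set.finite_range _)).pow _)) ?_)
  · refine le_trans (Nat.mul_le_mul_left _ (Nat.choose_le_choose _ ?_)) hS1
    omega
  · intro m hm
    obtain ⟨h1, h2⟩ := hS2 m hm
    exact forms_mem' (R := MvPolynomial ι K) y e hy (Submodule.span K (Set.range y))
      (fun v => Submodule.subset_span ⟨v, rfl⟩) M₁ hM₁ (M₁ + e + B) T m.degree h1 (by omega)
      (monomial m 1) (isHomogeneous_monomial _ rfl)

end Count

section LinAlg

variable {F : Type*} [Field F]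

/-- few columns and as many rows suffice -/
theorem exists_minor {σ τ₀ : Type*} [Fintype σ] [Fintype τ₀] (h : σ → τ₀ → F) (p : σ → F)
    (c : τ₀ → F) (hp : ∀ u, p u = ∑ j, c j * h u j) :
    ∃ (r : ℕ) (a : Fin r → τ₀) (k : Fin r → σ) (c' : Fin r → F), Function.Injective a ∧
      (∀ u, p u = ∑ i, c' i * h u (a i)) ∧ IsUnit (Matrix.of fun i i' => h (k i) (a i')).det := by
  classical
  obtain ⟨κ, a, ha, hspan, hli⟩ := exists_linearIndependent' F (fun j : τ₀ => fun u : σ => h u j)
  have : Finite κ := Finite.of_injective a ha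
  have : Fintype κ := Fintype.ofFinite κ
  -- rows
  have hrank : (Matrix.of fun (i : κ) (u : σ) => h u (a i)).rank = Fintype.card κ :=
    LinearIndependent.rank_matrix (M := Matrix.of fun (i : κ) (u : σ) => h u (a i)) hli
  have hrank2 : (Matrix.of fun (u : σ) (i : κ) => h u (a i)).rank = Fintype.card κ := by
    rw [← Matrix.rank_transpose] at hrank
    exact hrank
  obtain ⟨κ', k, hk, hspan', hli'⟩ := exists_linearIndependent' F
    (fun u : σ => fun i : κ => h u (a i))
  have : Finite κ' := Finite.of_injective k hk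
  have : Fintype κ' := Fintype.ofFinite κ'
  have hcard : Fintype.card κ' = Fintype.card κ := by
    have h1 := linearIndependent_iff_card_eq_finrank_span.mp hli'
    rw [h1, Set.finrank, hspan', ← hrank2, Matrix.rank_eq_finrank_span_row]
    rfl
  let e₁ : Fin (Fintype.card κ) ≃ κ := (Fintype.equivFin κ).symm
  let e₂ : Fin (Fintype.card κ) ≃ κ' := (Fintype.equivFinOfCardEq hcard).symm
  have hmem : p ∈ Submodule.span F (Set.range ((fun j : τ₀ => fun u : σ => h u j) ∘ a)) := by
    rw [hspan]
    have h1 : p = ∑ j, c j • (fun u : σ => h u j) := by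
      funext u
      rw [hp u, Finset.sum_apply]
      rfl
    rw [h1]
    exact Submodule.sum_mem _ fun j _ => Submodule.smul_mem _ _ (Submodule.subset_span ⟨j, rfl⟩)
  obtain ⟨c', hc'⟩ := (Submodule.mem_span_range_iff_exists_fun F).mp hmem
  refine ⟨Fintype.card κ, a ∘ e₁, k ∘ e₂, c' ∘ e₁, ha.comp e₁.injective, ?_, ?_⟩
  · intro u
    have h1 := congrFun hc' u
    rw [Finset.sum_apply] at h1
    rw [← h1, ← Equiv.sum_comp e₁]
    rfl
  · have h1 : LinearIndependent F
        (Matrix.of fun (i : Fin (Fintype.card κ)) (i' : Fin (Fintype.card κ)) =>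
          h (k (e₂ i)) (a (e₁ i'))).row := by
      have h2 := hli'.comp e₂ e₂.injective
      have h3 := h2.map' (LinearMap.funLeft F F e₁)
        (LinearMap.ker_eq_bot.mpr (LinearMap.funLeft_injective_of_surjective F F e₁ e₁.surjective))
      exact h3
    exact (Matrix.isUnit_iff_isUnit_det _).mp (Matrix.linearIndependent_rows_iff_isUnit.mp h1)

end LinAlg

section Trans

variable {K : Type*} [Field K] [Infinite K] {σ ι : Type*}

/-- the parameter of the translation -/
noncomputable def epsO (K : Type*) [Field K] : O0 K :=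
  ⟨algebraMap (Polynomial K) (RatFunc K) Polynomial.X, by
    rw [mem_O0, RatFunc.denom_algebraMap]; simp⟩

lemma φ0_epsO : φ0 K (epsO K) = 0 := by
  unfold epsO
  rw [Pool.Agent.H632R2.Border.φ0_poly, Polynomial.eval_X]

/-- the translated substitution over the valuation ring -/
noncomputable def SO (S : σ → MvPolynomial ι K) (c : σ → K) (v : σ) : MvPolynomial ι (O0 K) :=
  map (ψ0 K) (S v) + C (epsO K * ψ0 K (c v))

lemma map_SO (S : σ → MvPolynomial ι K) (c : σ → K) (v : σ) : map (φ0 K) (SO S c v) = S v := by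
  unfold SO
  rw [map_add, map_map, map_C, map_mul, φ0_epsO, zero_mul, C_0, add_zero]
  have h1 : (φ0 K).comp (ψ0 K) = RingHom.id K := RingHom.ext (φψ K)
  rw [h1, map_id]

/-- the ring homomorphism given by the translated substitution -/
noncomputable def θO (S : σ → MvPolynomial ι K) (c : σ → K) :
    MvPolynomial σ K →+* MvPolynomial ι (O0 K) :=
  (aeval (R := O0 K) (SO S c)).toRingHom.comp (map (ψ0 K))

/-- the ring homomorphism given by the translated substitution -/
noncomputable def θL (S : σ → MvPolynomial ι K) (c : σ → K) :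
    MvPolynomial σ K →+* MvPolynomial ι (RatFunc K) :=
  (map (O0 K).subtype).comp (θO S c)

lemma φ_θO (S : σ → MvPolynomial ι K) (c : σ → K) (p : MvPolynomial σ K) :
    map (φ0 K) (θO S c p) = aeval S p := by
  change map (φ0 K) (aeval (SO S c) (map (ψ0 K) p)) = _
  rw [map_aeval_comm, map_map]
  have h1 : (φ0 K).comp (ψ0 K) = RingHom.id K := RingHom.ext (φψ K)
  rw [h1, map_id]
  have h2 : (fun v => map (φ0 K) (SO S c v)) = S := funext (map_SO S c)
  rw [h2]

lemma θL_apply (S : σ → MvPolynomial ι K) (c : σ → K) (p : MvPolynomial σ K) :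
    θL S c p = aeval (fun v => map (O0 K).subtype (SO S c v))
      (map ((O0 K).subtype.comp (ψ0 K)) p) := by
  change map (O0 K).subtype (aeval (SO S c) (map (ψ0 K) p)) = _
  rw [map_aeval_comm, map_map]

lemma totalDegree_SL (S : σ → MvPolynomial ι K) (hS : ∀ v, (S v).totalDegree ≤ 1) (c : σ → K)
    (v : σ) : (map (O0 K).subtype (SO S c v)).totalDegree ≤ 1 := by
  unfold SO
  rw [map_add, map_map, map_C]
  refine (totalDegree_add _ _).trans (max_le ?_ ?_)
  · exact (totalDegree_map_le _ _).trans (hS v)
  · rw [totalDegree_C]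
    exact Nat.zero_le _

lemma totalDegree_θL (S : σ → MvPolynomial ι K) (hS : ∀ v, (S v).totalDegree ≤ 1) (c : σ → K)
    (d : ℕ) (p : MvPolynomial σ K) (hp : p.totalDegree ≤ d) : (θL S c p).totalDegree ≤ d := by
  rw [θL_apply]
  have h1 : (map ((O0 K).subtype.comp (ψ0 K)) p).totalDegree ≤ d :=
    (totalDegree_map_le _ _).trans hp
  rw [(map ((O0 K).subtype.comp (ψ0 K)) p).as_sum, map_sum]
  apply totalDegree_finsetSum_le
  intro m hm
  have h2 : m.degree ≤ d := (le_totalDegree hm).trans h1
  rw [aeval_monomial, algebraMap_eq]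
  refine (totalDegree_mul _ _).trans ?_
  rw [totalDegree_C, zero_add, Finsupp.prod]
  refine (totalDegree_finsetProd _ _).trans ?_
  refine le_trans ?_ h2
  rw [Finsupp.degree_apply]
  apply Finset.sum_le_sum
  intro i _
  refine (totalDegree_pow _ _).trans ?_
  calc m i * (map (O0 K).subtype (SO S c i)).totalDegree ≤ m i * 1 :=
        Nat.mul_le_mul_left _ (totalDegree_SL S hS c i)
    _ = m i := Nat.mul_one _

/-- a generic translation does not annihilate a given polynomial -/
theorem exists_trans (S : σ → MvPolynomial ι K) (Q : MvPolynomial σ K) (hQ : Q ≠ 0) :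
    ∃ c : σ → K, θL S c Q ≠ 0 := by
  obtain ⟨p, hp⟩ : ∃ p : σ → K, eval p Q ≠ 0 := by
    by_contra hcon
    push Not at hcon
    exact hQ (MvPolynomial.funext fun p => by rw [hcon p, map_zero])
  refine ⟨fun v => p v - eval 0 (S v), ?_⟩
  intro h0
  apply hp
  have h1 := congrArg (eval (0 : ι → RatFunc K)) h0
  rw [map_zero, θL_apply] at h1
  -- the value is a polynomial in the parameter
  have h2 : ∀ q : MvPolynomial σ K, eval (0 : ι → RatFunc K)
      (aeval (fun v => map (O0 K).subtype (SO S (fun v => p v - eval 0 (S v)) v))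
        (map ((O0 K).subtype.comp (ψ0 K)) q)) =
      algebraMap (Polynomial K) (RatFunc K) (aeval (fun v => Polynomial.C (eval 0 (S v)) +
        Polynomial.X * Polynomial.C (p v - eval 0 (S v))) q) := by
    intro q
    induction q using MvPolynomial.induction_on with
    | C a =>
      rw [map_C, aeval_C, aeval_C]
      change eval 0 (C _) = _
      rw [eval_C]
      change RatFunc.C a = _
      rw [← RatFunc.algebraMap_C]
      rfl
    | add f g hf hg => simp only [map_add, hf, hg]
    | mul_X f v hf =>
      simp only [map_mul, hf, map_X, aeval_X]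
      congr 1
      unfold SO
      rw [map_add, map_add, map_map, map_C, eval_C, map_add, map_mul, map_mul]
      congr 1
      have h3 : ∀ g : MvPolynomial ι K, eval (0 : ι → RatFunc K)
          (map ((O0 K).subtype.comp (ψ0 K)) g) =
          algebraMap (Polynomial K) (RatFunc K) (Polynomial.C (eval 0 g)) := by
        intro g
        induction g using MvPolynomial.induction_on with
        | C a =>
          rw [map_C, eval_C, eval_C]
          change RatFunc.C a = _
          rw [← RatFunc.algebraMap_C]
        | add f g hf hg => simp only [map_add, hf, hg]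
        | mul_X f v hf => simp
      exact h3 _
  rw [h2 Q] at h1
  have h4 := (map_eq_zero_iff _ (RatFunc.algebraMap_injective K)).mp h1
  have h5 := congrArg (Polynomial.eval (1 : K)) h4
  rw [Polynomial.eval_zero] at h5
  rw [← h5]
  have h6 : ∀ q : MvPolynomial σ K, Polynomial.eval (1 : K)
      (aeval (fun v => Polynomial.C (eval 0 (S v)) +
        Polynomial.X * Polynomial.C (p v - eval 0 (S v))) q) = eval p q := by
    intro q
    induction q using MvPolynomial.induction_on with
    | C a =>
      rw [aeval_C, eval_C]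
      change Polynomial.eval 1 (Polynomial.C a) = a
      rw [Polynomial.eval_C]
    | add f g hf hg => simp only [map_add, Polynomial.eval_add, hf, hg]
    | mul_X f v hf =>
      rw [map_mul, map_mul, Polynomial.eval_mul, hf, aeval_X, eval_X]
      simp
  exact (h6 Q).symm

end Trans

end Pool.Agent.W943.Few
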