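import Pool.Agent.W943.Few.F4
import Pool.Agent.W944.FamilyD

/-! # The inequality for a substitution whose gradient contains forms without common zeros -/

set_option autoImplicit false
set_option linter.unusedSectionVars false

open Module MvPolynomial

namespace Pool.Agent.W943.Few

open Pool.Agent.W944
open Pool.Agent.H632R2.Border (O0 φ0 ψ0 φψ)

lemma Hv_map {A B : Type*} [CommRing A] [CommRing B] {N : ℕ} (θ : A →+* B)
    (M Mv : Matrix (Fin N) (Fin N) A) (b bv : Fin N → A) (i : Fin N) :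
    ((M.map θ).adjugate.mulVec fun i => (M.map θ).det * θ (bv i) -
      ((Mv.map θ).mulVec ((M.map θ).adjugate.mulVec fun i => θ (b i))) i) i =
    θ ((M.adjugate.mulVec fun i => M.det * bv i - (Mv.mulVec (M.adjugate.mulVec b)) i) i) := by
  have hadj : ∀ i j, (M.map θ).adjugate i j = θ (M.adjugate i j) := by
    intro i j
    have h := RingHom.map_adjugate θ M
    rw [RingHom.mapMatrix_apply, RingHom.mapMatrix_apply] at h
    rw [← h]
    rfl
  have hdet : (M.map θ).det = θ M.det := by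
    rw [RingHom.map_det, RingHom.mapMatrix_apply]
  have h1 : ∀ m, ((M.map θ).adjugate.mulVec fun i => θ (b i)) m = θ (M.adjugate.mulVec b m) := by
    intro m
    change ∑ k, (M.map θ).adjugate m k * θ (b k) = θ (∑ k, M.adjugate m k * b k)
    rw [map_sum]
    refine Finset.sum_congr rfl fun k _ => ?_
    rw [hadj, map_mul]
  have h2 : ∀ m, ((Mv.map θ).mulVec ((M.map θ).adjugate.mulVec fun i => θ (b i))) m =
      θ ((Mv.mulVec (M.adjugate.mulVec b)) m) := by
    intro m
    change ∑ k, θ (Mv m k) * ((M.map θ).adjugate.mulVec fun i => θ (b i)) k =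
      θ (∑ k, Mv m k * M.adjugate.mulVec b k)
    rw [map_sum]
    refine Finset.sum_congr rfl fun k _ => ?_
    rw [h1, map_mul]
  change ∑ k, (M.map θ).adjugate i k * ((M.map θ).det * θ (bv k) -
      ((Mv.map θ).mulVec ((M.map θ).adjugate.mulVec fun i => θ (b i))) k) =
    θ (∑ k, M.adjugate i k * (M.det * bv k - (Mv.mulVec (M.adjugate.mulVec b)) k))
  rw [map_sum]
  refine Finset.sum_congr rfl fun k _ => ?_
  rw [hadj, h2, hdet, map_mul, map_sub, map_mul]

/-- the directional derivative of the solution, times the square of the determinant -/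
noncomputable def Hu {K : Type*} [Field K] {σ : Type*} {N : ℕ}
    (A : Matrix (Fin N) (Fin N) (MvPolynomial σ K)) (b : Fin N → MvPolynomial σ K) (u : σ)
    (i : Fin N) : MvPolynomial σ K :=
  (A.adjugate.mulVec fun i => A.det * pderiv u (b i) -
    ((A.map (pderiv u)).mulVec (A.adjugate.mulVec b)) i) i

theorem core {K : Type*} [Field K] [IsAlgClosed K] {σ ι τ₀ V : Type*} [Fintype σ] [Fintype ι]
    [Fintype τ₀] [Finite V] {N : ℕ} (f : MvPolynomial σ K) (d : ℕ) (hf : f.totalDegree ≤ d)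
    (S : σ → MvPolynomial ι K) (hS : ∀ v, (S v).totalDegree ≤ 1)
    (y : V → MvPolynomial ι K) (e : ℕ) (hy : ∀ v, (y v).IsHomogeneous e)
    (hz : ∀ x : ι → K, (∀ v, eval x (y v) = 0) → x = 0)
    (hyS : ∀ v, ∃ (c : K) (u : σ), y v = C c * aeval S (pderiv u f))
    (A : Matrix (Fin N) (Fin N) (MvPolynomial σ K)) (b : Fin N → MvPolynomial σ K) (δ : ℕ)
    (hA : ∀ i j, (A i j).totalDegree ≤ δ) (hb : ∀ i, (b i).totalDegree ≤ δ)
    (hdet : A.det ≠ 0) (out : τ₀ → Fin N) (p₀ : MvPolynomial σ K) (hp₀ : p₀ ≠ 0)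
    (pj : τ₀ → MvPolynomial σ K)
    (hrel : ∀ u, p₀ * (pderiv u f * A.det * A.det) = ∑ j, pj j * Hu A b u (out j))
    (k : ℕ) (hι : Fintype.card ι = k + 1) (e' : ℕ) (h1 : δ ≤ e') (h2 : d - 1 ≤ e') :
    ∃ r M₀ : ℕ, r ≤ Fintype.card τ₀ ∧ ∀ B T t₁ t₂ t₃ : ℕ,
      (t₁ + N).choose N * ((t₂ + N).choose N * ((t₃ + r).choose r *
        ((B + 1) * (e * T + k).choose k))) ≤
      (k + 2).multichoose (M₀ + B + (δ - 1) * T + t₃ * e' + t₂ * δ + t₁ * δ) *
        (N + 1).multichoose (T + t₃ + t₁) * (N + r + 1).multichoose (T + t₃ + t₂) := by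
  classical
  obtain ⟨c, hc⟩ := exists_trans S (p₀ * A.det) (mul_ne_zero hp₀ hdet)
  set θ := θL S c with hθ
  rw [map_mul] at hc
  have hp0 : θ p₀ ≠ 0 := left_ne_zero_of_mul hc
  have hd0 : θ A.det ≠ 0 := right_ne_zero_of_mul hc
  set M : Matrix (Fin N) (Fin N) (MvPolynomial ι (RatFunc K)) := A.map θ with hM
  set bb : Fin N → MvPolynomial ι (RatFunc K) := fun i => θ (b i) with hbb
  have hMdet : M.det = θ A.det := by
    rw [RingHom.map_det, RingHom.mapMatrix_apply]
  set F := FractionRing (MvPolynomial ι (RatFunc K)) with hF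
  set α := algebraMap (MvPolynomial ι (RatFunc K)) F with hα
  have hinj : Function.Injective α := IsFractionRing.injective _ _
  set Mu : σ → Matrix (Fin N) (Fin N) (MvPolynomial ι (RatFunc K)) :=
    fun u => (A.map (pderiv u)).map θ with hMu
  set bu : σ → Fin N → MvPolynomial ι (RatFunc K) := fun u i => θ (pderiv u (b i)) with hbu
  have hHu : ∀ u i, Hv M bb (Mu u) (bu u) i = θ (Hu A b u i) := fun u i =>
    Hv_map θ A (A.map (pderiv u)) b (fun i => pderiv u (b i)) i
  -- the relation over the fraction field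
  have hrelF : ∀ u, α (θ (pderiv u f) * M.det * M.det) =
      ∑ j, (α (θ (pj j)) / α (θ p₀)) * α (Hv M bb (Mu u) (bu u) (out j)) := by
    intro u
    have h3 := congrArg (fun x => α (θ x)) (hrel u)
    rw [map_mul, map_mul, map_mul, map_mul, map_sum, map_sum, ← hMdet] at h3
    have hne : α (θ p₀) ≠ 0 := (map_ne_zero_iff _ hinj).mpr hp0
    have h4 : ∑ j, (α (θ (pj j)) / α (θ p₀)) * α (Hv M bb (Mu u) (bu u) (out j)) =
        (∑ j, α (θ (pj j * Hu A b u (out j)))) / α (θ p₀) := by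
      rw [Finset.sum_div]
      refine Finset.sum_congr rfl fun j _ => ?_
      rw [hHu, map_mul, map_mul]
      ring
    rw [h4, ← h3, mul_div_cancel_left₀ _ hne, ← map_mul α, map_mul θ, ← hMdet]
  obtain ⟨r, a, kk, c', ha, hp, hunit⟩ := exists_minor
    (fun (u : σ) (j : τ₀) => α (Hv M bb (Mu u) (bu u) (out j)))
    (fun u => α (θ (pderiv u f) * M.det * M.det)) _ hrelF
  obtain ⟨M₀, hM₀⟩ := forms_dim y e hy hz k hι
  refine ⟨r, M₀, by simpa using Fintype.card_le_of_injective a ha, ?_⟩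
  intro B T t₁ t₂ t₃
  have hdegM : ∀ i j, (M i j).totalDegree ≤ δ := fun i j => totalDegree_θL S hS c δ _ (hA i j)
  have hdegb : ∀ i, (bb i).totalDegree ≤ δ := fun i => totalDegree_θL S hS c δ _ (hb i)
  have hdegMu : ∀ u i j, (Mu u i j).totalDegree ≤ δ - 1 := fun u i j =>
    totalDegree_θL S hS c _ _ (totalDegree_pderiv_leD δ _ (hA i j) u)
  have hdegbu : ∀ u i, (bu u i).totalDegree ≤ δ - 1 := fun u i =>
    totalDegree_θL S hS c _ _ (totalDegree_pderiv_leD δ _ (hb i) u)
  have hdegf : ∀ u, (θ (pderiv u f)).totalDegree ≤ d - 1 := fun u =>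
    totalDegree_θL S hS c _ _ (totalDegree_pderiv_leD d _ hf u)
  have hrelR : ∀ u, Rel M bb (out ∘ a) c' (Mu u) (bu u) (θ (pderiv u f)) := fun u => hp u
  have hmain := main_ineq (τ := Fin r) (F := F) (l := out ∘ a) (c := c') (δ := δ) (δ₁ := δ - 1)
    (e := e') hinj hdegM hdegb (by rw [hMdet]; exact hd0) (fun i => Mu (kk i))
    (fun i => bu (kk i)) (fun i => θ (pderiv (kk i) f))
    (fun i x y => (hdegMu _ x y).trans (by omega)) (fun i x => (hdegbu _ x).trans (by omega))
    (fun i => (hdegf _).trans h2) (fun i => hrelR (kk i))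
    (Matrix.of fun i i' => α (Hv M bb (Mu (kk i)) (bu (kk i)) (out (a i'))))
    (fun i i' => rfl) hunit Mu bu (fun u => θ (pderiv u f)) hdegMu hdegbu hrelR
    t₁ t₂ t₃ (M₀ + B) T
  rw [Fintype.card_fin, hι] at hmain
  refine le_trans ?_ hmain
  apply Nat.mul_le_mul_left
  apply Nat.mul_le_mul_left
  apply Nat.mul_le_mul_left
  refine (hM₀ B T).trans ?_
  apply semi (φψ K) y (fun u => θ (pderiv u f))
  intro v
  obtain ⟨c₁, u, hcu⟩ := hyS v
  refine ⟨C (ψ0 K c₁) * θO S c (pderiv u f), ?_, ?_⟩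
  · rw [map_mul, map_C, φψ, φ_θO, hcu]
  · rw [map_mul, map_C, ← smul_eq_C_mul]
    exact Submodule.smul_mem _ _ (Submodule.subset_span ⟨u, rfl⟩)

end Pool.Agent.W943.Few
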