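import Mathlib
import Pool.Agent.W944.Leading
import Pool.Agent.W944.Smooth

/-! # Comparison of leading coefficients and the explicit inequality -/

set_option autoImplicit false

open Filter Topology

namespace Pool.Agent.W943.Few

open Pool.Agent.W944

/-- comparison of leading coefficients -/
lemma lead (A B b₁ b₂ b₃ c₁ c₂ c₃ : ℝ) (n₁ n₂ n₃ : ℕ)
    (h : ∀ τ : ℕ, 1 ≤ τ → A * (τ : ℝ) ^ (n₁ + n₂ + n₃) ≤
      B * ((b₁ * τ + c₁) ^ n₁ * (b₂ * τ + c₂) ^ n₂ * (b₃ * τ + c₃) ^ n₃)) :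
    A ≤ B * (b₁ ^ n₁ * b₂ ^ n₂ * b₃ ^ n₃) := by
  have ht : ∀ b c : ℝ, Tendsto (fun τ : ℕ => b + c / τ) atTop (𝓝 b) := by
    intro b c
    have h1 := (tendsto_const_div_atTop_nhds_zero_nat c).const_add b
    rwa [add_zero] at h1
  have hlim : Tendsto (fun τ : ℕ => B * ((b₁ + c₁ / τ) ^ n₁ * (b₂ + c₂ / τ) ^ n₂ *
      (b₃ + c₃ / τ) ^ n₃)) atTop (𝓝 (B * (b₁ ^ n₁ * b₂ ^ n₂ * b₃ ^ n₃))) :=
    ((((ht b₁ c₁).pow n₁).mul ((ht b₂ c₂).pow n₂)).mul ((ht b₃ c₃).pow n₃)).const_mul B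
  refine ge_of_tendsto hlim ?_
  filter_upwards [eventually_ge_atTop 1] with τ hτ
  have hτ0 : (0 : ℝ) < τ := by exact_mod_cast hτ
  have h1 := h τ hτ
  have e : ∀ b c : ℝ, b * τ + c = (b + c / τ) * τ := by
    intro b c
    field_simp
  rw [e b₁, e b₂, e b₃, mul_pow, mul_pow, mul_pow] at h1
  have h2 : B * ((b₁ + c₁ / τ) ^ n₁ * (τ : ℝ) ^ n₁ * ((b₂ + c₂ / τ) ^ n₂ * (τ : ℝ) ^ n₂) *
      ((b₃ + c₃ / τ) ^ n₃ * (τ : ℝ) ^ n₃)) =
      (B * ((b₁ + c₁ / τ) ^ n₁ * (b₂ + c₂ / τ) ^ n₂ * (b₃ + c₃ / τ) ^ n₃)) *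
        (τ : ℝ) ^ (n₁ + n₂ + n₃) := by
    rw [pow_add, pow_add]
    ring
  rw [h2] at h1
  exact le_of_mul_le_mul_right h1 (by positivity)

/-- the inequality for all parameters gives the inequality for the leading coefficients -/
theorem lead_ineq (k N r M₀ e e' δ ρ : ℕ)
    (h : ∀ B T t₁ t₂ t₃ : ℕ,
      (t₁ + N).choose N * ((t₂ + N).choose N * ((t₃ + r).choose r *
        ((B + 1) * (e * T + k).choose k))) ≤
      (k + 2).multichoose (M₀ + B + (δ - 1) * T + t₃ * e' + t₂ * δ + t₁ * δ) *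
        (N + 1).multichoose (T + t₃ + t₁) * (N + r + 1).multichoose (T + t₃ + t₂))
    (he' : 0 < e') (hδ : 1 ≤ δ) :
    ((k + 1 : ℕ) : ℝ) * (e : ℝ) ^ k * ((e' : ℝ) * ρ) ^ (2 * N) * ((δ : ℝ) * ρ) ^ r *
      ((N + r).choose r : ℝ) ≤
      ((δ : ℝ) + 3 * δ * ρ) ^ (k + 1) * ((e' : ℝ) + δ * ρ + e' * ρ) ^ (2 * N + r) := by
  have he0 : (0 : ℝ) < e' := by exact_mod_cast he'
  have key : ((e' : ℝ) * ρ) ^ N / N.factorial * (((e' : ℝ) * ρ) ^ N / N.factorial *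
      (((δ : ℝ) * ρ) ^ r / r.factorial * (e' * (((e : ℝ) * e') ^ k / k.factorial)))) ≤
      (1 / ((k + 1).factorial * N.factorial * (N + r).factorial)) *
        ((e' * ((δ : ℝ) + 3 * δ * ρ)) ^ (k + 1) * ((e' : ℝ) + δ * ρ + e' * ρ) ^ N *
          ((e' : ℝ) + δ * ρ + e' * ρ) ^ (N + r)) := by
    apply lead _ _ _ _ _ ((M₀ : ℝ) + k + 1) (N : ℝ) ((N : ℝ) + r)
    intro τ hτ
    have h1 := h (e' * τ) (e' * τ) (e' * ρ * τ) (e' * ρ * τ) (δ * ρ * τ)
    have g1 : M₀ + e' * τ + (δ - 1) * (e' * τ) + δ * ρ * τ * e' + e' * ρ * τ * δ + e' * ρ * τ * δ =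
        M₀ + e' * (δ + 3 * δ * ρ) * τ := by
      obtain ⟨δ', rfl⟩ : ∃ δ', δ = δ' + 1 := ⟨δ - 1, by omega⟩
      rw [Nat.add_sub_cancel]
      ring
    have g2 : e' * τ + δ * ρ * τ + e' * ρ * τ = (e' + δ * ρ + e' * ρ) * τ := by ring
    rw [g1, g2, multichoose_succ, multichoose_succ, multichoose_succ] at h1
    have h2 : (((e' * ρ * τ + N).choose N : ℕ) : ℝ) * ((((e' * ρ * τ + N).choose N : ℕ) : ℝ) *
        ((((δ * ρ * τ + r).choose r : ℕ) : ℝ) * ((((e' * τ : ℕ) : ℝ) + 1) *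
        (((e * (e' * τ) + k).choose k : ℕ) : ℝ)))) ≤
        (((k + 1 + (M₀ + e' * (δ + 3 * δ * ρ) * τ)).choose (k + 1) : ℕ) : ℝ) *
        (((N + (e' + δ * ρ + e' * ρ) * τ).choose N : ℕ) : ℝ) *
        (((N + r + (e' + δ * ρ + e' * ρ) * τ).choose (N + r) : ℕ) : ℝ) := by
      exact_mod_cast h1
    have l1 := choose_ge (e' * ρ * τ) N
    have l2 := choose_ge (δ * ρ * τ) r
    have l3 := choose_ge (e * (e' * τ)) k
    have u1 := choose_le' (M₀ + e' * (δ + 3 * δ * ρ) * τ) (k + 1)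
    have u2 := choose_le' ((e' + δ * ρ + e' * ρ) * τ) N
    have u3 := choose_le' ((e' + δ * ρ + e' * ρ) * τ) (N + r)
    calc _ = (((e' * ρ * τ : ℕ) : ℝ)) ^ N / N.factorial * ((((e' * ρ * τ : ℕ) : ℝ)) ^ N /
          N.factorial * ((((δ * ρ * τ : ℕ) : ℝ)) ^ r / r.factorial * (((e' * τ : ℕ) : ℝ) *
            ((((e * (e' * τ) : ℕ) : ℝ)) ^ k / k.factorial)))) := by
          push_cast
          rw [show k + 1 + N + (N + r) = N + N + r + 1 + k by ring, pow_add, pow_add, pow_add,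
            pow_add, pow_one]
          simp only [mul_pow]
          ring
      _ ≤ _ := by
          refine le_trans ?_ h2
          gcongr
          linarith
      _ ≤ (((k + 1 : ℕ) : ℝ) + ((M₀ + e' * (δ + 3 * δ * ρ) * τ : ℕ) : ℝ)) ^ (k + 1) /
          (k + 1).factorial * (((N : ℝ) + (((e' + δ * ρ + e' * ρ) * τ : ℕ) : ℝ)) ^ N /
          N.factorial) * ((((N + r : ℕ) : ℝ) + (((e' + δ * ρ + e' * ρ) * τ : ℕ) : ℝ)) ^ (N + r) /
          (N + r).factorial) := by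
          gcongr
      _ = _ := by
          push_cast
          have e1 : (k : ℝ) + 1 + (M₀ + e' * (δ + 3 * δ * ρ) * τ) =
            e' * (δ + 3 * δ * ρ) * τ + (M₀ + k + 1) := by ring
          have e2 : (N : ℝ) + (e' + δ * ρ + e' * ρ) * τ = (e' + δ * ρ + e' * ρ) * τ + N := by ring
          have e3 : (N : ℝ) + r + (e' + δ * ρ + e' * ρ) * τ =
            (e' + δ * ρ + e' * ρ) * τ + (N + r) := by ring
          rw [e1, e2, e3]
          ring
  -- clear the denominators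
  have hN0 : (0 : ℝ) < N.factorial := by exact_mod_cast Nat.factorial_pos N
  have hr0 : (0 : ℝ) < r.factorial := by exact_mod_cast Nat.factorial_pos r
  have hk0 : (0 : ℝ) < k.factorial := by exact_mod_cast Nat.factorial_pos k
  have hk1 : ((k + 1).factorial : ℝ) = (k + 1 : ℕ) * k.factorial := by
    rw [Nat.factorial_succ]; push_cast; ring
  have hNr : ((N + r).factorial : ℝ) = (N + r).choose r * N.factorial * r.factorial := by
    have h1 := Nat.add_choose_mul_factorial_mul_factorial N r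
    exact_mod_cast h1.symm
  rw [hk1, hNr] at key
  have hC0 : (0 : ℝ) < ((N + r).choose r : ℕ) := by
    exact_mod_cast Nat.choose_pos (Nat.le_add_left r N)
  have hk2 : (0 : ℝ) < ((k + 1 : ℕ) : ℝ) := by positivity
  have key2 : ((k + 1 : ℕ) : ℝ) * (e : ℝ) ^ k * ((e' : ℝ) * ρ) ^ (2 * N) * ((δ : ℝ) * ρ) ^ r *
      ((N + r).choose r : ℝ) * (e' : ℝ) ^ (k + 1) ≤
      ((δ : ℝ) + 3 * δ * ρ) ^ (k + 1) * ((e' : ℝ) + δ * ρ + e' * ρ) ^ (2 * N + r) *
        (e' : ℝ) ^ (k + 1) := by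
    have h3 := mul_le_mul_of_nonneg_left key (show (0 : ℝ) ≤ ((k + 1 : ℕ) : ℝ) * k.factorial *
      (N.factorial * ((N + r).choose r * N.factorial * r.factorial)) by positivity)
    have e1 : ((k + 1 : ℕ) : ℝ) * k.factorial *
        (N.factorial * ((N + r).choose r * N.factorial * r.factorial)) *
        (((e' : ℝ) * ρ) ^ N / N.factorial * (((e' : ℝ) * ρ) ^ N / N.factorial *
      (((δ : ℝ) * ρ) ^ r / r.factorial * (e' * (((e : ℝ) * e') ^ k / k.factorial))))) =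
      ((k + 1 : ℕ) : ℝ) * (e : ℝ) ^ k * ((e' : ℝ) * ρ) ^ (2 * N) * ((δ : ℝ) * ρ) ^ r *
      ((N + r).choose r : ℝ) * (e' : ℝ) ^ (k + 1) := by
      rw [two_mul, pow_add ((e' : ℝ) * ρ), pow_succ, mul_pow (e : ℝ)]
      field_simp
    have e2 : ((k + 1 : ℕ) : ℝ) * k.factorial *
        (N.factorial * ((N + r).choose r * N.factorial * r.factorial)) *
        ((1 / ((k + 1 : ℕ) * k.factorial * N.factorial *
          ((N + r).choose r * N.factorial * r.factorial))) *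
        ((e' * ((δ : ℝ) + 3 * δ * ρ)) ^ (k + 1) * ((e' : ℝ) + δ * ρ + e' * ρ) ^ N *
          ((e' : ℝ) + δ * ρ + e' * ρ) ^ (N + r))) =
      ((δ : ℝ) + 3 * δ * ρ) ^ (k + 1) * ((e' : ℝ) + δ * ρ + e' * ρ) ^ (2 * N + r) *
        (e' : ℝ) ^ (k + 1) := by
      rw [show 2 * N + r = N + (N + r) by ring, pow_add _ N (N + r), mul_pow (e' : ℝ)]
      field_simp
    rw [e1, e2] at h3
    exact h3
  exact le_of_mul_le_mul_right key2 (by positivity)

end Pool.Agent.W943.Few
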