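import Mathlib

/-! # Numerics: the inequality of leading coefficients bounds the degree -/

set_option autoImplicit false

namespace Pool.Agent.W943.Few

lemma pow_le_choose_of (ρ N : ℕ) (hρ : 1 ≤ ρ) : ∀ r : ℕ, ρ * r ≤ N + r →
    ρ ^ r ≤ (N + r).choose r
  | 0, _ => by simp
  | r + 1, h => by
      have h1 : ρ * r ≤ N + r := by nlinarith
      have ih := pow_le_choose_of ρ N hρ r h1
      have h2 := Nat.add_one_mul_choose_eq (N + r) r
      have h3 : ρ ^ (r + 1) * (r + 1) ≤ (N + (r + 1)).choose (r + 1) * (r + 1) := by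
        calc ρ ^ (r + 1) * (r + 1) = (ρ * (r + 1)) * ρ ^ r := by ring
          _ ≤ (N + (r + 1)) * (N + r).choose r := Nat.mul_le_mul h ih
          _ = (N + (r + 1)).choose (r + 1) * (r + 1) := by
              exact h2
      exact Nat.le_of_mul_le_mul_right h3 (Nat.succ_pos r)

lemma exp_bd : 4 * Real.exp (2 + 1 / 30) ≤ 31 := by
  have h1 : Real.exp 1 < 2.7182818286 := Real.exp_one_lt_d9
  have h2 : Real.exp (1 / 30 : ℝ) ≤ 30 / 29 := by
    have := Real.one_sub_le_exp_neg (1 / 30 : ℝ)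
    rw [Real.exp_neg] at this
    have h0 := Real.exp_pos (1 / 30 : ℝ)
    have h3 : (1 - 1 / 30 : ℝ) * Real.exp (1 / 30) ≤ 1 := by
      calc (1 - 1 / 30 : ℝ) * Real.exp (1 / 30) ≤ (Real.exp (1 / 30))⁻¹ * Real.exp (1 / 30) := by
            gcongr
        _ = 1 := inv_mul_cancel₀ h0.ne'
    linarith
  have h3 : Real.exp (2 + 1 / 30) = Real.exp 1 * Real.exp 1 * Real.exp (1 / 30) := by
    rw [← Real.exp_add, ← Real.exp_add]
    norm_num
  rw [h3]
  have p1 := Real.exp_pos 1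
  have p2 := Real.exp_pos (1 / 30 : ℝ)
  have h4 : Real.exp 1 * Real.exp 1 ≤ 2.7182818286 * 2.7182818286 := by
    gcongr
  calc 4 * (Real.exp 1 * Real.exp 1 * Real.exp (1 / 30)) ≤
      4 * (2.7182818286 * 2.7182818286 * (30 / 29)) := by gcongr
    _ ≤ 31 := by norm_num

theorem degree_le (k N r e e' δ ρ : ℕ) (hρ : ρ = N / (k + 1) + 1)
    (hr : 20 * r ≤ k + 1) (he : 1 ≤ e) (hee : e ≤ e') (heM : e ≤ k + 1) (he' : e' ≤ 1750 * e)
    (hδ : 1 ≤ δ)
    (h : ((k + 1 : ℕ) : ℝ) * (e : ℝ) ^ k * ((e' : ℝ) * ρ) ^ (2 * N) * ((δ : ℝ) * ρ) ^ r *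
      ((N + r).choose r : ℝ) ≤
      ((δ : ℝ) + 3 * δ * ρ) ^ (k + 1) * ((e' : ℝ) + δ * ρ + e' * ρ) ^ (2 * N + r)) :
    e ≤ 60 * (δ * ρ) := by
  by_contra hcon
  push Not at hcon
  obtain ⟨M, hM⟩ : ∃ M, M = k + 1 := ⟨_, rfl⟩
  rw [← hM] at hρ hr heM h
  have hM1 : 1 ≤ M := by omega
  have hρ1 : 1 ≤ ρ := by rw [hρ]; exact Nat.le_add_left 1 _
  have hNM : N ≤ ρ * M := by
    have h1 := Nat.div_add_mod N M
    have h2 := Nat.mod_lt N (show M > 0 by omega)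
    rw [hρ]
    nlinarith
  have hρr : ρ * r ≤ N + r := by
    have h1 : N / M * M ≤ N := Nat.div_mul_le_self N M
    have h2 : r ≤ M := by omega
    have h3 : N / M * r ≤ N / M * M := Nat.mul_le_mul_left _ h2
    rw [hρ]
    nlinarith
  have hC := pow_le_choose_of ρ N hρ1 r hρr
  have hCr : ((ρ : ℝ)) ^ r ≤ ((N + r).choose r : ℝ) := by exact_mod_cast hC
  have heR : (1 : ℝ) ≤ e := by exact_mod_cast he
  have hδR : (1 : ℝ) ≤ δ := by exact_mod_cast hδ
  have hρR : (1 : ℝ) ≤ ρ := by exact_mod_cast hρ1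
  have heeR : (e : ℝ) ≤ e' := by exact_mod_cast hee
  have he'0 : (0 : ℝ) < e' := by linarith
  have hconR : 60 * ((δ : ℝ) * ρ) < e := by exact_mod_cast hcon
  have hMR : (1 : ℝ) ≤ (M : ℝ) := by exact_mod_cast hM1
  have hNR : (N : ℝ) ≤ ρ * M := by exact_mod_cast hNM
  obtain ⟨D, hD⟩ : ∃ D : ℝ, D = (δ : ℝ) * ρ := ⟨_, rfl⟩
  rw [← hD] at hconR h
  have hD1 : 1 ≤ D := by rw [hD]; nlinarith
  have hDe : D ≤ e' := by nlinarith
  have hDδ : (δ : ℝ) ≤ D := by rw [hD]; nlinarith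
  -- first factor
  have f1 : ((δ : ℝ) + 3 * δ * ρ) ^ M ≤ (4 * D) ^ M := by
    refine pow_le_pow_left₀ (by positivity) ?_ _
    rw [mul_assoc 3, ← hD]
    linarith
  -- second factor
  have f2 : ((e' : ℝ) + D + e' * ρ) ^ (2 * N) ≤
      ((e' : ℝ) * ρ) ^ (2 * N) * Real.exp (2 + 1 / 30) ^ M := by
    have g1 : (e' : ℝ) + D + e' * ρ = (e' * ρ) * (1 + (1 / ρ + δ / e')) := by
      rw [hD]
      field_simp
      ring
    have g2 : (1 + (1 / (ρ : ℝ) + δ / e')) ≤ Real.exp (1 / (ρ : ℝ) + δ / e') := by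
      have := Real.add_one_le_exp (1 / (ρ : ℝ) + δ / e')
      linarith
    rw [g1, mul_pow]
    refine mul_le_mul_of_nonneg_left ?_ (by positivity)
    calc (1 + (1 / (ρ : ℝ) + δ / e')) ^ (2 * N) ≤ Real.exp (1 / (ρ : ℝ) + δ / e') ^ (2 * N) := by
          gcongr
      _ = Real.exp ((2 * N : ℕ) * (1 / (ρ : ℝ) + δ / e')) := by rw [← Real.exp_nat_mul]
      _ ≤ Real.exp (M * (2 + 1 / 30)) := by
          apply Real.exp_le_exp.2
          have g3 : (N : ℝ) * (1 / ρ) ≤ M := by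
            rw [mul_one_div, div_le_iff₀ (by linarith)]
            linarith
          have g4 : (N : ℝ) * (δ / e') ≤ M / 60 := by
            rw [mul_div_assoc', div_le_div_iff₀ he'0 (by norm_num)]
            have : (N : ℝ) * δ ≤ ρ * M * δ := by gcongr
            have h5 : ρ * M * δ * 60 ≤ (M : ℝ) * e' := by
              have h6 : (ρ : ℝ) * M * δ * 60 = M * (60 * D) := by rw [hD]; ring
              rw [h6]
              exact mul_le_mul_of_nonneg_left (by linarith) (by linarith)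
            nlinarith
          push_cast
          nlinarith
      _ = Real.exp (2 + 1 / 30) ^ M := by rw [← Real.exp_nat_mul]
  -- third factor
  have f3 : ((e' : ℝ) + D + e' * ρ) ^ r ≤ (3 * e' * ρ) ^ r := by
    gcongr
    nlinarith
  -- combine
  have c1 : (M : ℝ) * (e : ℝ) ^ k * ((e' : ℝ) * ρ) ^ (2 * N) * D ^ r * (ρ : ℝ) ^ r ≤
      (4 * D) ^ M * (((e' : ℝ) * ρ) ^ (2 * N) * Real.exp (2 + 1 / 30) ^ M) *
        (3 * e' * ρ) ^ r := by
    calc (M : ℝ) * (e : ℝ) ^ k * ((e' : ℝ) * ρ) ^ (2 * N) * D ^ r * (ρ : ℝ) ^ r ≤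
        (M : ℝ) * (e : ℝ) ^ k * ((e' : ℝ) * ρ) ^ (2 * N) * D ^ r * ((N + r).choose r : ℝ) := by
          gcongr
      _ ≤ ((δ : ℝ) + 3 * δ * ρ) ^ M * ((e' : ℝ) + D + e' * ρ) ^ (2 * N + r) := h
      _ ≤ _ := by
          rw [pow_add, ← mul_assoc]
          have hz : 0 ≤ ((e' : ℝ) + D + e' * ρ) := by positivity
          refine mul_le_mul (mul_le_mul f1 f2 (by positivity) (by positivity)) f3
            (by positivity) (by positivity)
  have hpos : (0 : ℝ) < ((e' : ℝ) * ρ) ^ (2 * N) * (ρ : ℝ) ^ r := by positivity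
  have c2 : (M : ℝ) * (e : ℝ) ^ k * D ^ r ≤
      (4 * Real.exp (2 + 1 / 30)) ^ M * D ^ M * (3 * e') ^ r := by
    refine le_of_mul_le_mul_right ?_ hpos
    calc (M : ℝ) * (e : ℝ) ^ k * D ^ r * (((e' : ℝ) * ρ) ^ (2 * N) * (ρ : ℝ) ^ r) =
        (M : ℝ) * (e : ℝ) ^ k * ((e' : ℝ) * ρ) ^ (2 * N) * D ^ r * (ρ : ℝ) ^ r := by ring
      _ ≤ _ := c1
      _ = _ := by
        rw [mul_pow 4 D, mul_pow 4, mul_pow (3 * (e' : ℝ)) ρ]
        ring
  have c3 : (e : ℝ) ^ M * D ^ r ≤ 31 ^ M * D ^ M * (5250 * e) ^ r := by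
    calc (e : ℝ) ^ M * D ^ r ≤ (M : ℝ) * (e : ℝ) ^ k * D ^ r := by
          have heMR : (e : ℝ) ≤ M := by exact_mod_cast heM
          rw [show (e : ℝ) ^ M = e * e ^ k by rw [hM, pow_succ']]
          gcongr
      _ ≤ _ := c2
      _ ≤ _ := by
          have h1 := exp_bd
          have h2 : (e' : ℝ) ≤ 1750 * e := by exact_mod_cast he'
          have h3 : 3 * (e' : ℝ) ≤ 5250 * e := by linarith
          have h4 := Real.exp_pos (2 + 1 / 30)
          gcongr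
  have hrM : r < M := by omega
  -- divide
  obtain ⟨t, ht⟩ : ∃ t, M = r + t + 1 := ⟨M - r - 1, by omega⟩
  have hD0 : (0 : ℝ) < D := by linarith
  have he0 : (0 : ℝ) < e := by linarith
  have c4 : (e : ℝ) ^ (t + 1) ≤ 31 ^ M * D ^ (t + 1) * 5250 ^ r := by
    have hp : (0 : ℝ) < (e : ℝ) ^ r * D ^ r := by positivity
    refine le_of_mul_le_mul_right ?_ hp
    calc (e : ℝ) ^ (t + 1) * ((e : ℝ) ^ r * D ^ r) = (e : ℝ) ^ M * D ^ r := by
          rw [ht]; ring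
      _ ≤ _ := c3
      _ = _ := by
        rw [show D ^ M = D ^ (t + 1) * D ^ r by rw [ht]; ring, mul_pow 5250]
        ring
  have c5 : (60 * D) ^ (t + 1) < 31 ^ M * D ^ (t + 1) * 5250 ^ r := by
    refine lt_of_lt_of_le ?_ c4
    gcongr
  have c6 : (60 : ℝ) ^ (t + 1) < 31 ^ M * 5250 ^ r := by
    have hp : (0 : ℝ) < D ^ (t + 1) := by positivity
    refine lt_of_mul_lt_mul_right ?_ hp.le
    calc (60 : ℝ) ^ (t + 1) * D ^ (t + 1) = (60 * D) ^ (t + 1) := (mul_pow _ _ _).symm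
      _ < _ := c5
      _ = _ := by ring
  have c7 : (60 : ℝ) ^ M < 31 ^ M * 315000 ^ r := by
    calc (60 : ℝ) ^ M = 60 ^ (t + 1) * 60 ^ r := by rw [ht]; ring
      _ < 31 ^ M * 5250 ^ r * 60 ^ r := by gcongr
      _ = 31 ^ M * 315000 ^ r := by
          rw [mul_assoc, ← mul_pow]; norm_num
  have c8 : (315000 : ℝ) ^ r ≤ (60 / 31) ^ M := by
    calc (315000 : ℝ) ^ r ≤ ((60 / 31) ^ 20) ^ r := by
          gcongr
          norm_num
      _ = (60 / 31) ^ (20 * r) := by rw [← pow_mul]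
      _ ≤ (60 / 31) ^ M := pow_le_pow_right₀ (by norm_num) hr
  have c9 : (60 : ℝ) ^ M < 60 ^ M := by
    calc (60 : ℝ) ^ M < 31 ^ M * 315000 ^ r := c7
      _ ≤ 31 ^ M * (60 / 31) ^ M := by gcongr
      _ = 60 ^ M := by rw [← mul_pow]; norm_num
  exact lt_irrefl _ c9

end Pool.Agent.W943.Few
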