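import Pool.Agent.W943.Few.F5
import Pool.Agent.W943.Few.F6
import Pool.Agent.W943.Few.F7
import Pool.Agent.W944.CircFinal

/-! # The cubic bound for the permanent, in the form with multipliers -/

set_option autoImplicit false
set_option linter.unusedSectionVars false

open Module MvPolynomial

namespace Pool.Agent.W943.Few

open Pool.Agent.W940.G
open Pool.Agent.W944.Cx (exists_params)
open Pool.Agent.H546R2.SL (perN)

lemma pderiv_map' {R S σ : Type*} [CommSemiring R] [CommSemiring S] (φ : R →+* S) (u : σ)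
    (p : MvPolynomial σ R) : pderiv u (map φ p) = map φ (pderiv u p) := pderiv_map

lemma Hu_map {K K' : Type*} [Field K] [Field K'] {σ : Type*} {N : ℕ} (φ : K →+* K')
    (A : Matrix (Fin N) (Fin N) (MvPolynomial σ K)) (b : Fin N → MvPolynomial σ K) (u : σ)
    (i : Fin N) :
    Hu (A.map (map φ)) (fun j => map φ (b j)) u i = map φ (Hu A b u i) := by
  have h := Hv_map (map φ : MvPolynomial σ K →+* MvPolynomial σ K') A (A.map (pderiv u)) b
    (fun j => pderiv u (b j)) i
  unfold Hu
  rw [← h]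
  have e1 : (A.map (map φ)).map (pderiv u) = (A.map (pderiv u)).map (map φ) := by
    ext i j : 1
    simp only [Matrix.map_apply]
    exact pderiv_map' φ u _
  have e2 : (fun j => pderiv u (map φ (b j))) = fun j => map φ (pderiv u (b j)) := by
    funext j
    exact pderiv_map' φ u _
  simp only [e1, pderiv_map']

lemma totalDegree_map_le' {R S σ : Type*} [CommSemiring R] [CommSemiring S] (φ : R →+* S)
    (p : MvPolynomial σ R) : (map φ p).totalDegree ≤ p.totalDegree :=
  Finset.sup_mono (support_map_subset φ p)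

lemma totalDegree_perN (K : Type*) [Field K] (m : ℕ) : (perN K m).totalDegree ≤ m := by
  unfold perN Matrix.permanent
  refine totalDegree_finsetSum_le fun s _ => ?_
  refine (totalDegree_finsetProd _ _).trans ?_
  simp only [Matrix.of_apply, totalDegree_X]
  simp

theorem perm_core (k₀ : Type*) [Field k₀] [CharZero k₀] (m N δ : ℕ) (hδ : 1 ≤ δ)
    (hm : 210000 * δ ≤ m)
    (A : Matrix (Fin N) (Fin N) (MvPolynomial (Fin m × Fin m) k₀))
    (b : Fin N → MvPolynomial (Fin m × Fin m) k₀)
    (hA : ∀ i j, (A i j).totalDegree ≤ δ) (hb : ∀ i, (b i).totalDegree ≤ δ)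
    (hdet : A.det ≠ 0) (T : Finset (Fin N)) (hT : 5440 * T.card ≤ m ^ 2)
    (p₀ : MvPolynomial (Fin m × Fin m) k₀) (hp₀ : p₀ ≠ 0)
    (pj : T → MvPolynomial (Fin m × Fin m) k₀)
    (hrel : ∀ u, p₀ * (pderiv u (perN k₀ m) * A.det * A.det) =
      ∑ j, pj j * Hu A b u (j : Fin N)) :
    m ^ 3 ≤ 57120000 * (δ * N) := by
  classical
  obtain ⟨q, ℓ, k, p, D, hk2, hmm, hq, hmN, hD, hD1, hD2, hk⟩ := exists_params m (by omega)
  obtain ⟨S, y, hS, hy, hz, hyS, -, -⟩ :=
    exists_subst2 (AlgebraicClosure k₀) hk2 hmm hq m hmN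
  have hcard : Fintype.card (Id2 q (2 ^ ℓ) k) = D := by
    rw [hD]
    simp [Id2, Fintype.card_prod]
  have hx : 2 ^ ℓ * 2 ^ ℓ = 2 * k := hmm
  have hDq : D = 2 * (q * k) ^ 2 := by
    rw [hD, hx]; ring
  have hkm : k ≤ m := by
    have h1 : k ^ 2 ≤ m ^ 2 := by
      refine le_trans ?_ hD2
      rw [hDq, mul_pow]
      have : 1 ≤ q ^ 2 := Nat.one_le_pow _ _ hq
      nlinarith
    exact (Nat.pow_le_pow_iff_left (by norm_num)).1 h1
  have hkD : k ≤ D := by
    rw [hDq]
    have h1 : k ≤ q * k := Nat.le_mul_of_pos_left k hq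
    nlinarith
  set φ := algebraMap k₀ (AlgebraicClosure k₀) with hφ
  have hinj : Function.Injective (map (σ := Fin m × Fin m) φ) :=
    map_injective _ φ.injective
  have hdeg : (perN (AlgebraicClosure k₀) m).totalDegree ≤ m := totalDegree_perN _ m
  have hdetmap : (A.map (map φ)).det = map φ A.det := by
    rw [RingHom.map_det, RingHom.mapMatrix_apply]
  obtain ⟨r, M₀, hr, h⟩ := core (perN (AlgebraicClosure k₀) m) m hdeg S hS y (k - 1) hy hz hyS
    (A.map (map φ)) (fun i => map φ (b i)) δ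
    (fun i j => (totalDegree_map_le' _ _).trans (hA i j))
    (fun i => (totalDegree_map_le' _ _).trans (hb i))
    (by rw [hdetmap]; exact fun h => hdet (hinj (by rw [h, map_zero])))
    (fun j : T => (j : Fin N)) (map φ p₀) (fun h => hp₀ (hinj (by rw [h, map_zero])))
    (fun j => map φ (pj j))
    (fun u => by
      have h1 := congrArg (map φ) (hrel u)
      rw [map_mul, map_mul, map_mul, ← pderiv_map', Pool.Agent.H546R2.SL.map_perN, map_sum,
        ← hdetmap] at h1
      rw [h1]
      refine Finset.sum_congr rfl fun j _ => ?_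
      rw [map_mul, Hu_map])
    (D - 1) (by rw [hcard]; omega) m (by omega) (by omega)
  rw [Fintype.card_coe] at hr
  have h1 := lead_ineq (D - 1) N r M₀ (k - 1) m δ (N / D + 1) h (by omega) hδ
  have hDD : D - 1 + 1 = D := by omega
  have h2 := degree_le (D - 1) N r (k - 1) m δ (N / D + 1) (by rw [hDD]) (by omega) (by omega)
    (by omega) (by omega) (by omega) hδ h1
  -- final arithmetic
  have h3 : N / D * D ≤ N := Nat.div_mul_le_self N D
  have h4 : (k - 1) * D ≤ 60 * (δ * (N / D + 1)) * D := Nat.mul_le_mul_right D h2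
  have h5 : 60 * (δ * (N / D + 1)) * D = 60 * δ * (N / D * D) + 60 * δ * D := by ring
  have h6 : 60 * δ * (N / D * D) ≤ 60 * δ * N := Nat.mul_le_mul_left _ h3
  have h7 : 120 * δ ≤ k - 1 := by omega
  have h8 : 120 * δ * D ≤ (k - 1) * D := Nat.mul_le_mul_right D h7
  have h9 : (k - 1) * D ≤ 120 * (δ * N) := by
    have e1 : 60 * δ * N = 60 * (δ * N) := by ring
    have e2 : 120 * δ * D = 2 * (60 * δ * D) := by ring
    omega
  have h10 : m ^ 3 ≤ 1750 * (k - 1) * (272 * D) := by
    calc m ^ 3 = m * m ^ 2 := by ring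
      _ ≤ 1750 * (k - 1) * (272 * D) := Nat.mul_le_mul (by omega) hD1
  calc m ^ 3 ≤ 1750 * (k - 1) * (272 * D) := h10
    _ = 476000 * ((k - 1) * D) := by ring
    _ ≤ 476000 * (120 * (δ * N)) := Nat.mul_le_mul_left _ h9
    _ = 57120000 * (δ * N) := by ring

end Pool.Agent.W943.Few
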